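import Pool.Agent.V8H26.XA.Fin
import Pool.Agent.V8H26.XL.Sum

/-!
# The exact law of the 2-Selmer groups
-/

set_option autoImplicit false
set_option linter.all false

open Polynomial IsDedekindDomain WeierstrassCurve WeierstrassCurve.Affine Filter Topology
open scoped Classical

namespace Pool.Agent.V8H26.XA

open Pool.Agent.TH115.GD Pool.Agent.H341R2.Sharp Finset Pool.Agent.Y164.PS

section
variable {k K : Type} [Field k] [Fintype k] [DecidableEq k] [Field K] [Algebra k[X] K]
  [IsFractionRing k[X] K]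
variable {a b : k[X]} {N : ℕ} (H : Hyp a b N)

/-- the dimension is even -/
theorem rk_even {ι : Type} [Fintype ι] {P : ι → k[X]} (j : ι) (hcl : cl (datum H) (QQ a b) P)
    (hN : ∑ i, ((P i).natDegree : F2) + (N : F2) = 1)
    (hτ : Nonempty (Tau a b)) : Even (Pool.Agent.V8H26.XL.rk H P) := by
  have h := Pool.Agent.V8H26.XL.r0_eq (D := datum H) (d := Pool.Agent.V8H26.XL.dm P)
    (a := Pool.Agent.V8H26.XL.arr H.hm (QQ a b) P) hcl hN j
  show Even (Pool.Agent.V8H26.XL.r0 (datum H) (Pool.Agent.V8H26.XL.dm P)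
    (Pool.Agent.V8H26.XL.arr H.hm (QQ a b) P))
  rw [h]
  exact Pool.Agent.V8H26.XL.rho_even hτ _ _ _

end

/-- the order of the 2-Selmer group of the twist by `D` -/
noncomputable def so (k : Type) [Field k] (K : Type) [Field K] [Algebra k[X] K]
    [IsFractionRing k[X] K] (a b D : k[X]) : ℕ :=
  (Sl k (algebraMap k[X] K (a * D)) (algebraMap k[X] K (b * D))).ncard

/-- the final form -/
theorem final {k : Type} [Field k] [Finite k] (h2 : (2 : k) ≠ 0) (hi : IsSquare (-1 : k))
    (K : Type) [Field K] [Algebra k[X] K] [IsFractionRing k[X] K] (a b : k[X]) (N : ℕ)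
    (hco : IsCoprime a b) (da : a.natDegree = N) (db : b.natDegree = N) (dc : (a - b).natDegree = N)
    (s1 : ∀ (c : k) (h : k[X]), a * b ≠ C c * h ^ 2)
    (s2 : ∀ (c : k) (h : k[X]), a * (a - b) ≠ C c * h ^ 2)
    (s3 : ∀ (c : k) (h : k[X]), b * (a - b) ≠ C c * h ^ 2) :
    (∃ c : ℝ, 0 < c ∧ ∀ᶠ n : ℕ in atTop, Odd (n + N) →
      c * (Nat.card k : ℝ) ^ n ≤ ((cls a b n).ncard : ℝ)) ∧
    (∀ d : ℕ, Tendsto (fun n : ℕ => (({D ∈ cls a b n | so k K a b D = 2 ^ (2 * d + 2)}).ncard : ℝ) /
      ((cls a b n).ncard : ℝ)) (atTop ⊓ 𝓟 {n | Odd (n + N)}) (𝓝 (Pool.Agent.V8H26.XL.al d))) ∧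
    ∀ n : ℕ, 1 ≤ n → Odd (n + N) → ∀ D ∈ cls a b n,
      (∃ d : ℕ, so k K a b D = 2 ^ (2 * d + 2)) ∧
      (so k K a b D = 4 ↔
        Finite (Pt (crv (algebraMap k[X] K (a * D)) (algebraMap k[X] K (b * D))) K) ∧
        ShaTwo k (crv (algebraMap k[X] K (a * D)) (algebraMap k[X] K (b * D)))) := by
  letI : Fintype k := Fintype.ofFinite k
  have ha0 : a ≠ 0 := by
    rintro rfl
    exact s1 0 0 (by simp)
  have hb0 : b ≠ 0 := by
    rintro rfl
    exact s1 0 0 (by simp)
  have hab : a ≠ b := by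
    rintro rfl
    exact s2 0 0 (by simp)
  have hchar : ringChar k ≠ 2 := by
    intro h
    apply h2
    have := ringChar.Nat.cast_ringChar (R := k)
    rw [h] at this
    exact_mod_cast this
  have H : Hyp a b N := ⟨hchar, hi, ha0, hb0, hab, hco, da, db, dc⟩
  have hq : 4 ≤ Fintype.card k := by
    -- `-1` is a square and `2 ≠ 0`
    by_contra hlt
    push Not at hlt
    obtain ⟨i, hi'⟩ := hi
    have n0 : (0 : k) ≠ 1 := zero_ne_one
    have n1 : (1 : k) ≠ -1 := by
      intro h
      apply h2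
      have : (2 : k) = 1 + 1 := by norm_num
      rw [this]
      nth_rewrite 2 [h]
      ring
    have i0 : i ≠ 0 := by
      rintro rfl
      rw [mul_zero] at hi'
      exact neg_ne_zero.2 one_ne_zero hi'
    have i1 : i ≠ 1 := by
      rintro rfl
      rw [mul_one] at hi'
      exact n1 hi'.symm
    have i2 : i ≠ -1 := by
      rintro rfl
      apply n1
      rw [hi']
      ring
    have hcard : ({0, 1, -1, i} : Finset k).card = 4 := by
      rw [card_insert_of_notMem, card_insert_of_notMem, card_insert_of_notMem, card_singleton]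
      · rw [mem_singleton]; exact fun h => i2 h.symm
      · rw [mem_insert, mem_singleton]
        push Not
        exact ⟨n1, fun h => i1 h.symm⟩
      · rw [mem_insert, mem_insert, mem_singleton]
        push Not
        exact ⟨n0, fun h => neg_ne_zero.2 one_ne_zero h.symm, fun h => i0 h.symm⟩
    have := card_le_univ ({0, 1, -1, i} : Finset k)
    rw [hcard] at this
    omega
  have hcN : (Nat.card k : ℝ) = (Fintype.card k : ℝ) := by rw [Nat.card_eq_fintype_card]
  have hodd : ∀ n : ℕ, Odd (n + N) → (n : F2) + (N : F2) = 1 := by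
    intro n hn
    have : ((n + N : ℕ) : F2) = 1 := (ZMod.natCast_eq_one_iff_odd).2 hn
    rw [← this]
    push_cast
    rfl
  have e1 : ∀ n, (cls a b n).ncard = ((Sf k n).filter (P1 a b)).card := by
    intro n
    rw [← Set.ncard_coe_finset]
    congr 1
    ext D
    rw [Finset.mem_coe, mem_filter, mem_Sf, cla_iff H]
    show (_ ∧ _ ∧ _ ∧ _ ∧ _) ↔ _
    tauto
  have e2 : ∀ n (G : k[X] → Prop), ((Sf k n).filter (P2 G a b)).card =
      ({D ∈ cls a b n | G D}).ncard := by
    intro n G
    rw [← Set.ncard_coe_finset]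
    congr 1
    ext D
    rw [Finset.mem_coe, mem_filter, mem_Sf, P2, cla_iff H]
    show _ ↔ (_ ∧ _ ∧ _ ∧ _ ∧ _) ∧ _
    tauto
  have hmain := Pool.Agent.V8H26.XL.main_law H hq (two_types H s1 s2 s3)
  have hso : ∀ (ι : Type) [Fintype ι] (T : ι → k[X]), Fam (Sum.elim T (QQ a b)) →
      cl (datum H) (QQ a b) T → ∑ i, ((T i).natDegree : F2) + (N : F2) = 1 →
      so k K a b (∏ i, T i) = 2 ^ (2 + Pool.Agent.V8H26.XL.rk H T) := fun ι _ T hR hcl hN =>
    sel_card (K := K) H hR hcl hN
  refine ⟨?_, ?_, ?_⟩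
  · obtain ⟨c, hc, h⟩ := hmain.1
    refine ⟨c, hc, ?_⟩
    filter_upwards [h] with n hn ho
    rw [e1, hcN]
    exact hn (hodd n ho)
  · intro d
    have i1 : Pool.Agent.V8H26.XL.Imp1 H (2 * d) (fun D => so k K a b D = 2 ^ (2 * d + 2)) := by
      intro ι _ T hR hcl hN hT
      show so k K a b (∏ i, T i) = _
      rw [hso ι T hR hcl hN, hT, add_comm]
    have i2 : Pool.Agent.V8H26.XL.Imp2 H (2 * d) (fun D => so k K a b D = 2 ^ (2 * d + 2)) := by
      intro ι _ T hR hcl hN hT
      have h3 : so k K a b (∏ i, T i) = _ := hT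
      rw [hso ι T hR hcl hN] at h3
      have h4 := Nat.pow_right_injective (le_refl 2) h3
      omega
    obtain ⟨m1, m2⟩ := hmain.2 (2 * d) (fun D => so k K a b D = 2 ^ (2 * d + 2))
      (Pool.Agent.V8H26.XL.al d) (Pool.Agent.V8H26.XL.al_mem d).1 (Pool.Agent.V8H26.XL.al_mem d).2
      (Pool.Agent.V8H26.XL.Cv_Fe d)
    obtain ⟨c, hc, hpos⟩ := hmain.1
    rw [Metric.tendsto_nhds]
    intro ε hε
    have hε' : 0 < ε / 2 := half_pos hε
    rw [eventually_inf_principal]
    filter_upwards [m1 i1 _ hε', m2 i2 _ hε', hpos] with n h1 h3 h4 ho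
    have ho' := hodd n ho
    have h5 : (0 : ℝ) < (((Sf k n).filter (P1 a b)).card : ℝ) := by
      refine lt_of_lt_of_le ?_ (h4 ho')
      have : (0 : ℝ) < Fintype.card k := by exact_mod_cast Fintype.card_pos
      positivity
    rw [e1, ← e2, Real.dist_eq]
    have h6 := h1 ho'
    have h7 := h3 ho'
    have h8 : |(((Sf k n).filter (P2 (fun D => so k K a b D = 2 ^ (2 * d + 2)) a b)).card : ℝ) /
        (((Sf k n).filter (P1 a b)).card : ℝ) - Pool.Agent.V8H26.XL.al d| ≤ ε / 2 := by
      rw [abs_le]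
      constructor
      · have := (le_div_iff₀ h5).2 h6
        linarith
      · have := (div_le_iff₀ h5).2 h7
        linarith
    exact h8.trans_lt (half_lt_self hε)
  · intro n hn ho D hD
    obtain ⟨m1, m2, m3, m4, m5⟩ := hD
    have hP1 : P1 a b D := (cla_iff H).2 ⟨m4, m5⟩
    have hSf : D ∈ Sf k n := mem_Sf.2 ⟨m1, m2, m3⟩
    have hmp := fun P => (mem_pf (P := P) m1.ne_zero)
    have hTp : (fun i : pf D => (i : k[X])) ∈ Tp k (pf D) n := by
      rw [mem_Tp]
      refine ⟨fun i => ?_, ?_⟩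
      · have := (hmp i.1).1 i.2
        exact ⟨this.1, this.2.1⟩
      · rw [Finset.sum_coe_sort (pf D) (fun P : k[X] => P.natDegree)]
        exact deg_pf hSf
    have hprod : ∏ i : pf D, (i : k[X]) = D := by
      rw [Finset.prod_coe_sort (pf D) (fun P : k[X] => P)]
      exact prod_pf hSf
    have hnb : nb a b (∏ i : pf D, (i : k[X])) := by rw [hprod]; exact hP1.1
    have hok : ok (QQ a b) (fun i : pf D => (i : k[X])) :=
      (ok_iff H hTp).2 ⟨Subtype.val_injective, hnb⟩
    have hcl : cl (datum H) (QQ a b) (fun i : pf D => (i : k[X])) :=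
      (cl_iff H hTp hnb).2 (by rw [hprod]; exact hP1.2)
    have h7 := (mem_Tp.1 hTp)
    have hR : Fam (Sum.elim (fun i : pf D => (i : k[X])) (QQ a b)) := by
      refine ⟨?_, ?_, hok⟩
      · rintro (i | s)
        · exact (h7.1 i).1
        · exact H.fam.mon s
      · rintro (i | s)
        · exact (h7.1 i).2
        · exact H.fam.irr s
    have hN : ∑ i : pf D, (((i : k[X]).natDegree : F2)) + (N : F2) = 1 := by
      have h9 : ∑ i : pf D, (((i : k[X]).natDegree : F2)) = (n : F2) := by
        have h10 := congrArg (fun x : ℕ => (x : F2)) h7.2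
        simp only [Nat.cast_sum] at h10
        exact h10
      rw [h9]
      exact hodd n ho
    obtain ⟨j⟩ : Nonempty (pf D) := by
      by_contra h
      rw [not_nonempty_iff] at h
      have h11 := h7.2
      rw [Finset.univ_eq_empty, Finset.sum_empty] at h11
      omega
    have hτ : Nonempty (Tau a b) := by
      obtain ⟨s, -⟩ := two_types H s1 s2 s3 (1, 0) (by decide)
      exact ⟨s⟩
    have h12 := hso (pf D) (fun i : pf D => (i : k[X])) hR hcl hN
    have h13 := rk_even H j hcl hN hτ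
    have h14 := rk_zero_iff (K := K) H hR hcl hN
    rw [al, al, hprod] at h14
    rw [hprod] at h12
    rw [h12]
    constructor
    · obtain ⟨d, hd⟩ := h13
      exact ⟨d, by rw [hd]; congr 1; omega⟩
    · rw [← h14]
      constructor
      · intro h
        have h15 : 2 ^ (2 + Pool.Agent.V8H26.XL.rk H fun i : pf D => (i : k[X])) = 2 ^ 2 := h
        have := Nat.pow_right_injective (le_refl 2) h15
        omega
      · intro h
        rw [h]
        norm_num

end Pool.Agent.V8H26.XA
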