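import Pool.Agent.V8H26.XA.Sel

/-!
# Locally soluble pairs and cocycles
-/

set_option autoImplicit false
set_option linter.all false

open Polynomial IsDedekindDomain WeierstrassCurve WeierstrassCurve.Affine
open scoped Classical

namespace Pool.Agent.V8H26.XA

open Pool.Agent.TH115.GD
open Pool.Agent.W309.TD (locConst_apply exists_root compare)

universe u

section coc

variable {K F Ω : Type u} [Field K] [Field F] [Field Ω] [Algebra K F] [Algebra F Ω] [Algebra K Ω]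
  [IsScalarTower K F Ω] [IsGalois F Ω] [IsSepClosed Ω] (W : WeierstrassCurve K) {a b : K}
variable (hL : IsE (W.baseChange Ω).toAffine (algebraMap K Ω a) (algebraMap K Ω b))

include hL

omit [IsGalois F Ω] [IsSepClosed Ω] [IsScalarTower K F Ω] [Algebra K F] in
theorem tor_sign {t0 t1 : Ω} {a0 a1 : F} (e0 : t0 ^ 2 = algebraMap F Ω a0)
    (e1 : t1 ^ 2 = algebraMap F Ω a1) (σ : Ω ≃ₐ[F] Ω) :
    ∃ T : Pt W Ω, T + T = 0 ∧ σ t0 = s0 T * t0 ∧ σ t1 = s1 (algebraMap K Ω a) T * t1 := by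
  have g0 : σ t0 = t0 ∨ σ t0 = -t0 := by
    apply sq_eq_sq_iff_eq_or_eq_neg.1
    rw [← map_pow, e0, σ.commutes]
  have g1 : σ t1 = t1 ∨ σ t1 = -t1 := by
    apply sq_eq_sq_iff_eq_or_eq_neg.1
    rw [← map_pow, e1, σ.commutes]
  have z0 : (W.baseChange Ω).toAffine.Nonsingular 0 0 := hL.nonsingular.2 (by ring)
  have za : (W.baseChange Ω).toAffine.Nonsingular (algebraMap K Ω a) 0 :=
    hL.nonsingular.2 (by ring)
  have zb : (W.baseChange Ω).toAffine.Nonsingular (algebraMap K Ω b) 0 :=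
    hL.nonsingular.2 (by ring)
  rcases g0 with g0 | g0
  · rcases g1 with g1 | g1
    · refine ⟨0, add_zero 0, ?_, ?_⟩
      · rw [g0]; show t0 = 1 * t0; rw [one_mul]
      · rw [g1]; show t1 = 1 * t1; rw [one_mul]
    · refine ⟨Point.some 0 0 z0, (add_self_eq_zero_iff hL z0).2 rfl, ?_, ?_⟩
      · rw [g0]; simp [s0]
      · rw [g1]; simp [s1, Ne.symm hL.nea]
  · rcases g1 with g1 | g1
    · refine ⟨Point.some _ 0 za, (add_self_eq_zero_iff hL za).2 rfl, ?_, ?_⟩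
      · rw [g0]; simp [s0, hL.nea]
      · rw [g1]; simp [s1]
    · refine ⟨Point.some _ 0 zb, (add_self_eq_zero_iff hL zb).2 rfl, ?_, ?_⟩
      · rw [g0]; simp [s0, hL.neb]
      · rw [g1]; simp [s1, Ne.symm hL.neab]

/-- the cocycle of a pair -/
theorem coc_of_pair {t0 t1 : Ω} {a0 a1 : F} (n0 : t0 ≠ 0) (n1 : t1 ≠ 0)
    (e0 : t0 ^ 2 = algebraMap F Ω a0) (e1 : t1 ^ 2 = algebraMap F Ω a1) :
    ∃ f : (Ω ≃ₐ[F] Ω) → Pt W Ω, IsCoc W f ∧ (∀ σ, f σ + f σ = 0) ∧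
      (∀ σ, σ t0 = s0 (f σ) * t0) ∧ ∀ σ, σ t1 = s1 (algebraMap K Ω a) (f σ) * t1 := by
  choose f hf2 k0 k1 using tor_sign (F := F) W hL e0 e1
  have sgn : ∀ (σ : Ω ≃ₐ[F] Ω) {s : Ω}, (s = 1 ∨ s = -1) → σ s = s := by
    rintro σ s (rfl | rfl)
    · rw [map_one]
    · rw [map_neg, map_one]
  refine ⟨f, ⟨?_, fun σ τ => ?_⟩, hf2, k0, k1⟩
  · rw [IsLocallyConstant.iff_exists_open]
    intro σ
    obtain ⟨U, hU, hσU, hUx⟩ := (IsLocallyConstant.iff_exists_open _).1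
      (locConst_apply (K := F) t0) σ
    obtain ⟨V, hV, hσV, hVy⟩ := (IsLocallyConstant.iff_exists_open _).1
      (locConst_apply (K := F) t1) σ
    refine ⟨U ∩ V, hU.inter hV, ⟨hσU, hσV⟩, fun τ hτ => ?_⟩
    apply tor_ext hL (hf2 τ) (hf2 σ)
    · have h1 : τ t0 = σ t0 := hUx τ hτ.1
      rw [k0, k0] at h1
      exact mul_right_cancel₀ n0 h1
    · have h1 : τ t1 = σ t1 := hVy τ hτ.2
      rw [k1, k1] at h1
      exact mul_right_cancel₀ n1 h1
  · rw [act_tor W hL _ (hf2 τ)]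
    obtain ⟨g0, g1⟩ := s_add W hL (hf2 σ) (hf2 τ)
    have hST : (f σ + f τ) + (f σ + f τ) = 0 := by
      rw [add_add_add_comm, hf2, hf2, add_zero]
    apply tor_ext hL (hf2 _) hST
    · rw [g0]
      have h1 := k0 (σ * τ)
      rw [AlgEquiv.mul_apply, k0 τ, map_mul, sgn σ (s0_sq _), k0 σ] at h1
      apply mul_right_cancel₀ n0
      rw [← h1]; ring
    · rw [g1]
      have h1 := k1 (σ * τ)
      rw [AlgEquiv.mul_apply, k1 τ, map_mul, sgn σ (s1_sq _ _), k1 σ] at h1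
      apply mul_right_cancel₀ n1
      rw [← h1]; ring

omit [IsSepClosed Ω] in
/-- the point of a coboundary -/
theorem pt_of_cob {f : (Ω ≃ₐ[F] Ω) → Pt W Ω} (hf2 : ∀ σ, f σ + f σ = 0) {t0 t1 : Ω} {a0 a1 : F}
    (n0 : t0 ≠ 0) (n1 : t1 ≠ 0)
    (e0 : t0 ^ 2 = algebraMap F Ω a0) (e1 : t1 ^ 2 = algebraMap F Ω a1)
    (k0 : ∀ σ, σ t0 = s0 (f σ) * t0) (k1 : ∀ σ, σ t1 = s1 (algebraMap K Ω a) (f σ) * t1)
    {R : Pt W Ω} (hR : ∀ σ, f σ = act W (rs K σ) R - R) :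
    ∃ Q : Pt W F, SqEq a0 (d0 (algebraMap K F a) (algebraMap K F b) Q) ∧
      SqEq a1 (d1 (algebraMap K F a) (algebraMap K F b) Q) := by
  have hfix : ∀ σ : Ω ≃ₐ[F] Ω, act W (rs K σ) (R + R) = R + R := by
    intro σ
    have h1 := hf2 σ
    rw [hR, sub_add_sub_comm, ← map_add] at h1
    exact sub_eq_zero.1 h1
  obtain ⟨Q, hQ⟩ := fixed_point (K := K) (F := F) W (R + R) hfix
  have ga : incl K F Ω (algebraMap K F a) = algebraMap K Ω a :=
    (IsScalarTower.algebraMap_apply K F Ω a).symm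
  have gb : incl K F Ω (algebraMap K F b) = algebraMap K Ω b :=
    (IsScalarTower.algebraMap_apply K F Ω b).symm
  have m0 : ∀ σ : Ω ≃ₐ[F] Ω, σ (h0 (algebraMap K Ω a) (algebraMap K Ω b) R) =
      s0 (f σ) * h0 (algebraMap K Ω a) (algebraMap K Ω b) R := by
    intro σ
    rw [hR]
    exact (sign_half W hL hfix σ).2.1
  have m1 : ∀ σ : Ω ≃ₐ[F] Ω, σ (h1 (algebraMap K Ω a) (algebraMap K Ω b) R) =
      s1 (algebraMap K Ω a) (f σ) * h1 (algebraMap K Ω a) (algebraMap K Ω b) R := by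
    intro σ
    rw [hR]
    exact (sign_half W hL hfix σ).2.2
  obtain ⟨c0, hc0, q0⟩ := compare (K := F) n0 (h0_ne hL R) _ (fun τ => s0_ne _) k0 m0
  obtain ⟨c1, hc1, q1⟩ := compare (K := F) n1 (h1_ne hL R) _ (fun τ => s1_ne _ _) k1 m1
  have inj := (algebraMap F Ω).injective
  refine ⟨Q, ⟨c0, hc0, inj ?_⟩, ⟨c1, hc1, inj ?_⟩⟩
  · rw [← e0, q0, mul_pow, h0_sq hL, ← hQ, ← ga, ← gb, d0_act, map_mul, map_pow]
    rfl
  · rw [← e1, q1, mul_pow, h1_sq hL, ← hQ, ← ga, ← gb, d1_act, map_mul, map_pow]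
    rfl

end coc

section loc

variable {K F Ω L Ω' : Type u} [Field K] [Field F] [Field Ω] [Field L] [Field Ω']
  [Algebra K F] [Algebra F Ω] [Algebra K Ω] [IsScalarTower K F Ω] [IsGalois F Ω]
  [Algebra K L] [Algebra F L] [IsScalarTower K F L]
  [Algebra L Ω'] [Algebra K Ω'] [Algebra F Ω'] [IsScalarTower K L Ω'] [IsScalarTower F L Ω']
  [IsScalarTower K F Ω'] [IsGalois L Ω'] [IsSepClosed Ω']
  (W : WeierstrassCurve K) {a b : K}

/-- locally soluble pairs give locally trivial cocycles -/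
theorem locTriv_of_sol
    (hL' : IsE (W.baseChange Ω').toAffine (algebraMap K Ω' a) (algebraMap K Ω' b))
    {f : (Ω ≃ₐ[F] Ω) → Pt W Ω} (hf2 : ∀ σ, f σ + f σ = 0) (ι : Ω →ₐ[F] Ω') {t0 t1 : Ω}
    {a0 a1 : F} (n0 : t0 ≠ 0) (n1 : t1 ≠ 0)
    (e0 : t0 ^ 2 = algebraMap F Ω a0) (e1 : t1 ^ 2 = algebraMap F Ω a1)
    (k0 : ∀ σ, σ t0 = s0 (f σ) * t0) (k1 : ∀ σ, σ t1 = s1 (algebraMap K Ω a) (f σ) * t1)
    (h : LocSol W a b L a0 a1) : LocTriv W L Ω' f := by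
  obtain ⟨Q, c0, c1, hc0, hc1, q0, q1⟩ := h
  obtain ⟨H, hH⟩ := halve_sep hL' (act W (incl K L Ω') Q)
  choose res hres using exists_restrict (F := F) (Ω := Ω) (L := L) (Ω' := Ω') ι
  set ι' : Ω →ₐ[K] Ω' := ι.restrictScalars K with hι'
  have hιx : ∀ x, ι' x = ι x := fun x => rfl
  have ga : incl K L Ω' (algebraMap K L a) = algebraMap K Ω' a :=
    (IsScalarTower.algebraMap_apply K L Ω' a).symm
  have gb : incl K L Ω' (algebraMap K L b) = algebraMap K Ω' b :=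
    (IsScalarTower.algebraMap_apply K L Ω' b).symm
  have l0 : ∀ τ : Ω' ≃ₐ[L] Ω', τ (ι t0) = s0 (act W ι' (f (res τ))) * ι t0 := by
    intro τ
    rw [hres τ t0, k0, map_mul, s0_act, hιx]
  have l1 : ∀ τ : Ω' ≃ₐ[L] Ω', τ (ι t1) =
      s1 (algebraMap K Ω' a) (act W ι' (f (res τ))) * ι t1 := by
    intro τ
    have h3 := s1_act W ι' (algebraMap K Ω a) (f (res τ))
    rw [ι'.commutes] at h3
    rw [hres τ t1, k1, map_mul, h3, hιx]
  have ιn0 : ι t0 ≠ 0 := (map_ne_zero ι).2 n0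
  have ιn1 : ι t1 ≠ 0 := (map_ne_zero ι).2 n1
  have hfix : ∀ τ : Ω' ≃ₐ[L] Ω', act W (rs K τ) (H + H) = H + H := fun τ => by
    rw [hH]; exact rs_act_incl W τ Q
  have key := cob_of_rep (K := K) (F := L) (Ω := Ω') W hL'
    (f := fun τ => act W ι' (f (res τ))) (fun τ => (two_act W ι' _).2 (hf2 _)) ιn0 ιn1 l0 l1
    (H := H) hfix (c0 := c0) (c1 := c1)
    (by
      have w1 : (ι t0) ^ 2 = algebraMap F Ω' a0 := by rw [← map_pow, e0, ι.commutes]
      rw [w1, IsScalarTower.algebraMap_apply F L Ω', q0, hH, ← ga, ← gb, d0_act, map_mul, map_pow]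
      rfl)
    (by
      have w1 : (ι t1) ^ 2 = algebraMap F Ω' a1 := by rw [← map_pow, e1, ι.commutes]
      rw [w1, IsScalarTower.algebraMap_apply F L Ω', q1, hH, ← ga, ← gb, d1_act, map_mul, map_pow]
      rfl)
  refine ⟨ι, H, fun τ σ hτσ => ?_⟩
  have h1 : σ = res τ := AlgEquiv.ext fun x => ι.toRingHom.injective (by
    show ι (σ x) = ι (res τ x)
    rw [← hτσ, hres])
  rw [h1]
  exact key τ

end loc

section lt

variable {k' K F : Type} [Field k'] [Field K] [Field F] [Algebra K F] [Algebra k'[X] F]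
  [IsFractionRing k'[X] F] {W : WeierstrassCurve K}

theorem lt_of_ls {a b : K} (hE : ∀ (L : Type) [Field L] [Algebra K L],
      IsE (W.baseChange L).toAffine (algebraMap K L a) (algebraMap K L b))
    {f : (Sep F ≃ₐ[F] Sep F) → Pt W (Sep F)}
    (hf2 : ∀ σ, f σ + f σ = 0) {t0 t1 : Sep F} {a0 a1 : F}
    (n0 : t0 ≠ 0) (n1 : t1 ≠ 0)
    (e0 : t0 ^ 2 = algebraMap F (Sep F) a0) (e1 : t1 ^ 2 = algebraMap F (Sep F) a1)
    (k0 : ∀ σ, σ t0 = s0 (f σ) * t0) (k1 : ∀ σ, σ t1 = s1 (algebraMap K (Sep F) a) (f σ) * t1)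
    (h : LSg k' W a b a0 a1) : LocallyTrivial k' W f :=
  ⟨fun v => locTriv_of_sol _ (hE _) hf2 (IsSepClosed.lift (K := F) (L := Sep F)) n0 n1 e0 e1 k0 k1
      (h.1 v),
    locTriv_of_sol _ (hE _) hf2 (IsSepClosed.lift (K := F) (L := Sep F)) n0 n1 e0 e1 k0 k1 h.2⟩

end lt

section sha

variable {k K : Type} [Field k] [Field K] [Algebra k[X] K] [IsFractionRing k[X] K] {α β : K}

/-- if the Tate-Shafarevich group has no 2-primary part, locally soluble pairs come from points -/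
theorem pt_of_sha (h2 : (2 : K) ≠ 0) (hα : α ≠ 0) (hβ : β ≠ 0) (hαβ : α ≠ β)
    (hS : ShaTwo k (crv α β)) {a0 a1 : K} (ha0 : a0 ≠ 0) (ha1 : a1 ≠ 0)
    (h : LSg (F := K) k (crv α β) α β a0 a1) :
    ∃ Q : Pt (crv α β) K, SqEq a0 (d0 α β Q) ∧ SqEq a1 (d1 α β Q) := by
  have hE : ∀ (L : Type) [Field L] [Algebra K L],
      IsE ((crv α β).baseChange L).toAffine (algebraMap K L α) (algebraMap K L β) :=
    fun L _ _ => isE α β L h2 hα hβ hαβ
  have hL := hE (Sep K)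
  haveI : NeZero ((2 : ℕ) : Sep K) := ⟨by exact_mod_cast hL.two⟩
  obtain ⟨t0, e0⟩ := IsSepClosed.exists_pow_nat_eq (algebraMap K (Sep K) a0) 2
  obtain ⟨t1, e1⟩ := IsSepClosed.exists_pow_nat_eq (algebraMap K (Sep K) a1) 2
  have n0 : t0 ≠ 0 := by
    rintro rfl
    rw [zero_pow two_ne_zero] at e0
    exact (_root_.map_ne_zero (algebraMap K (Sep K))).2 ha0 e0.symm
  have n1 : t1 ≠ 0 := by
    rintro rfl
    rw [zero_pow two_ne_zero] at e1
    exact (_root_.map_ne_zero (algebraMap K (Sep K))).2 ha1 e1.symm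
  obtain ⟨f, hf, hf2, k0, k1⟩ := coc_of_pair (F := K) (crv α β) hL n0 n1 e0 e1
  have hlt : LocallyTrivial k (crv α β) f := lt_of_ls hE hf2 n0 n1 e0 e1 k0 k1 h
  obtain ⟨R, hR⟩ := hS f hf hlt ⟨1, 0, fun σ => by
    rw [pow_one, two_nsmul, hf2, map_zero, sub_zero]⟩
  exact pt_of_cob (F := K) (crv α β) hL hf2 n0 n1 e0 e1 k0 k1 hR

end sha

end Pool.Agent.V8H26.XA
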