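import Pool.Agent.V8H26.XA.Sol

/-!
# The order of the 2-Selmer group
-/

set_option autoImplicit false
set_option linter.all false

open Polynomial IsDedekindDomain WeierstrassCurve WeierstrassCurve.Affine
open scoped Classical

namespace Pool.Agent.V8H26.XA

open Pool.Agent.TH115.GD Pool.Agent.H341R2.Sharp Finset Pool.Agent.Y164.PS

section
variable {k K : Type} [Field k] [Fintype k] [DecidableEq k] [Field K] [Algebra k[X] K]
  [IsFractionRing k[X] K]
variable {a b : k[X]} {N : ℕ} (H : Hyp a b N)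
variable {ι : Type} [Fintype ι] {P : ι → k[X]} (hR : Fam (RR a b P))

include H hR in
/-- the vector of a locally soluble pair -/
theorem sel_vec (hcl : cl (datum H) (QQ a b) P) {a0 a1 : K} (ha0 : a0 ≠ 0) (ha1 : a1 ≠ 0)
    (hls : LSg (F := K) k (crv (al K a P) (al K b P)) (al K a P) (al K b P) a0 a1) :
    ∃ (r0 r1 : k) (n0 n1 : ι ⊕ Tau a b → ℕ) (c0 c1 : K) (w : V ι (Tau a b)),
      r0 ≠ 0 ∧ r1 ≠ 0 ∧ c0 ≠ 0 ∧ c1 ≠ 0 ∧ a0 = c0 ^ 2 * algebraMap k[X] K (el (RR a b P) r0 n0) ∧
      a1 = c1 ^ 2 * algebraMap k[X] K (el (RR a b P) r1 n1) ∧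
      (∀ i, (((n0 (Sum.inl i) : F2), (n1 (Sum.inl i) : F2)) : W) = w.1 i) ∧
      (∀ s, (((n0 (Sum.inr s) : F2), (n1 (Sum.inr s) : F2)) : W) = w.2 s • tv a b s) ∧
      (∀ i, E1 (A := AT P) (datum H) (BT (QQ a b) P) (fun i => ((P i).natDegree : F2)) w
        (ch r0, ch r1) i = 0) ∧
      ∀ s, E2 (ι := ι) (datum H) (BT (QQ a b) P) w (ch r0, ch r1) s = 0 := by
  have h2 := two_ne H
  obtain ⟨t1, t2, t3⟩ := tw_ne H hR
  have inj := IsFractionRing.injective k[X] K
  have h2K : (2 : K) ≠ 0 := tt h2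
  have haK : al K a P ≠ 0 := by
    rw [al, Ne, IsFractionRing.to_map_eq_zero_iff]; exact t1
  have hbK : al K b P ≠ 0 := by
    rw [al, Ne, IsFractionRing.to_map_eq_zero_iff]; exact t2
  have habK : al K a P ≠ al K b P := fun h => t3 (inj h)
  have hpar : ∀ v : HeightOneSpectrum k[X], a * b * (a - b) * ∏ i, P i ∉ v.asIdeal →
      IsSquare (v.valuation K a0) ∧ IsSquare (v.valuation K a1) := by
    intro v hv
    have hs := locR_fin h2 t1 t2 t3 hls v
    have m1 : a * ∏ i, P i ∉ v.asIdeal := by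
      intro h
      apply hv
      have : a * b * (a - b) * ∏ i, P i = (b * (a - b)) * (a * ∏ i, P i) := by ring
      rw [this]
      exact v.asIdeal.mul_mem_left _ h
    have m2 : b * ∏ i, P i ∉ v.asIdeal := by
      intro h
      apply hv
      have : a * b * (a - b) * ∏ i, P i = (a * (a - b)) * (b * ∏ i, P i) := by ring
      rw [this]
      exact v.asIdeal.mul_mem_left _ h
    have m3 : (a - b) * ∏ i, P i ∉ v.asIdeal := by
      intro h
      apply hv
      have : a * b * (a - b) * ∏ i, P i = (a * b) * ((a - b) * ∏ i, P i) := by ring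
      rw [this]
      exact v.asIdeal.mul_mem_left _ h
    have q1 : v.valuation K (al K a P) = 1 := (valK_one v).2 m1
    have q2 : v.valuation K (al K b P) = 1 := (valK_one v).2 m2
    have q3 : v.valuation K (al K a P - al K b P) = 1 := by
      rw [al, al, ← map_sub, ← sub_mul]
      exact (valK_one v).2 m3
    have g := parR (wv_coe (F := K) v) hs (M := 1) sq_one one_ne_zero q1.le q2.le
    exact ⟨g.1 q1 q2, g.2.1 q1 q3⟩
  obtain ⟨r0, n0, c0, hr0, hc0, e0⟩ := dec1 H hR ha0 fun v hv => (hpar v hv).1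
  obtain ⟨r1, n1, c1, hr1, hc1, e1⟩ := dec1 H hR ha1 fun v hv => (hpar v hv).2
  have hP := locP H hR hls hr0 hr1 hc0 hc1 e0 e1
  have hQ := locQ H hR hls hr0 hr1 hc0 hc1 e0 e1 hcl
  choose z hz0 hz1 hz2 using hQ
  set w : V ι (Tau a b) := (fun i => ((n0 (Sum.inl i) : F2), (n1 (Sum.inl i) : F2)), z) with hw
  set x0 : W := (ch r0, ch r1) with hx0
  have hz1' : ∀ s, (((n0 (Sum.inr s) : F2), (n1 (Sum.inr s) : F2)) : W) = z s • tv a b s := hz1
  have E1z : ∀ i, E1 (A := AT P) (datum H) (BT (QQ a b) P) (fun i => ((P i).natDegree : F2)) w x0 i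
      = 0 := by
    intro i
    obtain ⟨y, hy, hLW⟩ := hP i
    rw [LW_eq, LW_eq, rp_ch H] at hLW
    simp only [np_inl, np_inr H, hz1'] at hLW
    apply E1_of (k := k)
    have hy' : w.1 i = y := hy
    rw [hy']
    have a1 : ∀ j, AT P i j = L (P j) (P i) := fun j => by rw [AT, L_comm H.hm]
    have a2 : ∀ s, BT (QQ a b) P i s = L (QQ a b s) (P i) := fun s => by rw [BT, L_comm H.hm]
    simp only [a1, a2]
    exact hLW
  have E2z : ∀ s, E2 (ι := ι) (datum H) (BT (QQ a b) P) w x0 s = 0 := by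
    intro s
    have h1 := hz2 s
    rw [LW_eq] at h1
    simp only [hz1', om_add_left, om_sum_left, om_smul_left] at h1
    apply E2_of
    have a1 : ∀ s', (datum H).G s s' = L (QQ a b s') (QQ a b s) := fun s' => L_comm H.hm _ _
    simp only [a1]
    exact h1
  exact ⟨r0, r1, n0, n1, c0, c1, w, hr0, hr1, hc0, hc1, e0, e1, fun i => rfl, hz1', E1z, E2z⟩

theorem locSol_mul {K L : Type} [Field K] [Field L] (i1 i2 : Algebra K L) {α β a0 a1 b0 b1 : K}
    (h2 : (2 : K) ≠ 0) (hα : α ≠ 0) (hβ : β ≠ 0) (hαβ : α ≠ β)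
    (h : @LocSol K K _ _ (crv α β) α β L _ i1 i2 a0 a1)
    (h' : @LocSol K K _ _ (crv α β) α β L _ i1 i2 b0 b1) :
    @LocSol K K _ _ (crv α β) α β L _ i1 i2 (a0 * b0) (a1 * b1) :=
  @LocSol.mul K K _ _ (Algebra.id K) α β h2 hα hβ hαβ L _ i1 i2 a0 a1 b0 b1 h h'

/-- the units of `K` modulo squares -/
abbrev MS (K : Type) [Field K] : Type := Kˣ ⧸ (powMonoidHom 2 : Kˣ →* Kˣ).range

theorem ms_eq {K : Type} [Field K] (x y : Kˣ) :
    ((x : MS K) = (y : MS K)) ↔ SqEq (x : K) (y : K) := by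
  rw [QuotientGroup.eq]
  constructor
  · rintro ⟨z, hz⟩
    have h1 : y = x * z ^ 2 := by
      have : z ^ 2 = x⁻¹ * y := hz
      rw [this, mul_inv_cancel_left]
    apply SqEq.symm
    refine ⟨(z : K), z.ne_zero, ?_⟩
    rw [h1]
    push_cast
    ring
  · intro h
    obtain ⟨c, hc, e⟩ := h.symm
    refine ⟨Units.mk0 c hc, ?_⟩
    show (Units.mk0 c hc) ^ 2 = x⁻¹ * y
    rw [eq_inv_mul_iff_mul_eq]
    apply Units.ext
    push_cast
    rw [e, Units.val_mk0]
    ring

/-- the locally soluble pairs modulo squares -/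
def Sl (k : Type) {K : Type} [Field k] [Field K] [Algebra k[X] K] [IsFractionRing k[X] K]
    (α β : K) : Set (MS K × MS K) :=
  {c | ∃ x y : Kˣ, c = ((x : MS K), (y : MS K)) ∧ LSg (F := K) k (crv α β) α β (x : K) (y : K)}

/-- the unit of a polynomial -/
noncomputable def un (K : Type) [Field K] [Algebra k[X] K] [IsFractionRing k[X] K] {p : k[X]}
    (hp : p ≠ 0) : Kˣ :=
  Units.mk0 (algebraMap k[X] K p) (by
    rw [Ne, IsFractionRing.to_map_eq_zero_iff]
    exact hp)

theorem un_val {p : k[X]} (hp : p ≠ 0) : (un K hp : K) = algebraMap k[X] K p := rfl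

/-- the polynomials of a pair -/
noncomputable def q0 (a b : k[X]) (P : ι → k[X]) (u : V ι (Tau a b)) (y : W) : k[X] :=
  el (RR a b P) (1 * rp0 a b y) (nw0 a b u + np0 ι a b y)

noncomputable def q1 (a b : k[X]) (P : ι → k[X]) (u : V ι (Tau a b)) (y : W) : k[X] :=
  el (RR a b P) (1 * rp1 a b y) (nw1 a b u + np1 ι a b y)

include H hR in
theorem q_ne (u : V ι (Tau a b)) (y : W) : q0 a b P u y ≠ 0 ∧ q1 a b P u y ≠ 0 :=
  ⟨el_ne hR (mul_ne_zero one_ne_zero (rp_ne H y).1) _,
    el_ne hR (mul_ne_zero one_ne_zero (rp_ne H y).2) _⟩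

theorem add_pair (x y x' y' : F2) : ((x + x', y + y') : W) = (x, y) + (x', y') := rfl

include H in
/-- the exponents of a pair -/
theorem q_exp (u : V ι (Tau a b)) (y : W) :
    (∀ i, ((((nw0 a b u + np0 ι a b y) (Sum.inl i) : ℕ) : F2),
      (((nw1 a b u + np1 ι a b y) (Sum.inl i) : ℕ) : F2)) = (u + TT (datum H) y).1 i) ∧
    ∀ s, (((((nw0 a b u + np0 ι a b y) (Sum.inr s) : ℕ) : F2),
      (((nw1 a b u + np1 ι a b y) (Sum.inr s) : ℕ) : F2)) : W) =
        (u + TT (datum H) y).2 s • tv a b s := by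
  constructor
  · intro i
    rw [Pi.add_apply, Pi.add_apply, Nat.cast_add, Nat.cast_add, add_pair, nw_inl, np_inl]
    rfl
  · intro s
    rw [Pi.add_apply, Pi.add_apply, Nat.cast_add, Nat.cast_add, add_pair, nw_inr, np_inr H,
      ← add_smul]
    rfl

/-- the kernel -/
noncomputable def Kr (H : Hyp a b N) (P : ι → k[X]) : Submodule (ZMod 2) (V ι (Tau a b)) :=
  Pool.Agent.V8H26.XL.kr (Pool.Agent.V8H26.XL.FB (datum H) (Pool.Agent.V8H26.XL.dm P)
    (Pool.Agent.V8H26.XL.arr H.hm (QQ a b) P))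
    (Pool.Agent.V8H26.XL.V0 (datum H) (Pool.Agent.V8H26.XL.dm P))

theorem mem_Kr {u : V ι (Tau a b)} : u ∈ Kr H P ↔
    dg (datum H) (fun i => ((P i).natDegree : F2)) u = 0 ∧
    ∀ v, dg (datum H) (fun i => ((P i).natDegree : F2)) v = 0 →
      Pool.Agent.Y164.PS.FF (datum H) (AT P) (BT (QQ a b) P) (fun i => ((P i).natDegree : F2)) u v =
        0 := by
  constructor
  · intro h
    exact ⟨(Pool.Agent.V8H26.XL.mem_V0 _ _).1 h.1,
      fun v hv => h.2 v ((Pool.Agent.V8H26.XL.mem_V0 _ _).2 hv)⟩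
  · intro h
    exact ⟨(Pool.Agent.V8H26.XL.mem_V0 _ _).2 h.1,
      fun v hv => h.2 v ((Pool.Agent.V8H26.XL.mem_V0 _ _).1 hv)⟩

theorem rk_eq : Pool.Agent.V8H26.XL.rk H P = Module.finrank (ZMod 2) (Kr H P) := rfl

theorem card_Kr : Nat.card (Kr H P) = 2 ^ Pool.Agent.V8H26.XL.rk H P := by
  rw [rk_eq, Module.natCard_eq_pow_finrank (K := ZMod 2), Nat.card_zmod]

variable (hcl : cl (datum H) (QQ a b) P)
  (hN : ∑ i, ((P i).natDegree : F2) + (N : F2) = 1)

include hcl hN in
theorem kr_E {u : V ι (Tau a b)} (hu : u ∈ Kr H P) :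
    (∀ i, E1 (A := AT P) (datum H) (BT (QQ a b) P) (fun i => ((P i).natDegree : F2)) u 0 i = 0) ∧
    ∀ s, E2 (ι := ι) (datum H) (BT (QQ a b) P) u 0 s = 0 := by
  obtain ⟨h1, h2⟩ := (mem_Kr H).1 hu
  exact ker_E (datum H) (ker_all (datum H) (AT_comm H.hm P) hcl hN h1 h2)

include hcl in
/-- at a bad prime with trivial type the exponent vanishes -/
theorem E2_zero {w : V ι (Tau a b)} {x0 : W}
    (h : ∀ s, E2 (ι := ι) (datum H) (BT (QQ a b) P) w x0 s = 0) {s : Tau a b}
    (hs : tv a b s = 0) : w.2 s = 0 := by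
  have h1 := h s
  have h2 : E2 (ι := ι) (datum H) (BT (QQ a b) P) w x0 s = w.2 s + ∑ i, BT (QQ a b) P i s *
      om (w.1 i) (tv a b s) + ∑ s', (datum H).G s s' * (w.2 s' * om (tv a b s') (tv a b s)) +
      (datum H).e s * om x0 (tv a b s) := rfl
  rw [h2, hs] at h1
  simpa only [om_zero_right, mul_zero, sum_const_zero, add_zero] using h1

/-- vectors are determined by the exponents -/
theorem vec_ext {w w' : V ι (Tau a b)} (h1 : ∀ i, w.1 i = w'.1 i)
    (h2 : ∀ s, w.2 s • tv a b s = w'.2 s • tv a b s)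
    (h3 : ∀ s, tv a b s = 0 → w.2 s = w'.2 s) : w = w' := by
  refine Prod.ext (funext h1) (funext fun s => ?_)
  by_cases hs : tv a b s = 0
  · exact h3 s hs
  · have h4 := h2 s
    have key : ∀ (x y : F2) (t : W), t ≠ 0 → x • t = y • t → x = y := by decide
    exact key _ _ _ hs h4

include H hR hcl hN in
/-- **the order of the 2-Selmer group** -/
theorem sel_card : (Sl k (al K a P) (al K b P)).ncard = 2 ^ (2 + Pool.Agent.V8H26.XL.rk H P) := by
  have h2 := two_ne H
  obtain ⟨t1, t2, t3⟩ := tw_ne H hR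
  have inj := IsFractionRing.injective k[X] K
  have h2K : (2 : K) ≠ 0 := tt h2
  have haK : al K a P ≠ 0 := by
    rw [al, Ne, IsFractionRing.to_map_eq_zero_iff]; exact t1
  have hbK : al K b P ≠ 0 := by
    rw [al, Ne, IsFractionRing.to_map_eq_zero_iff]; exact t2
  have habK : al K a P ≠ al K b P := fun h => t3 (inj h)
  have hdT : ∀ y : W, dg (datum H) (fun i => ((P i).natDegree : F2)) (TT (datum H) y) = y :=
    fun y => by rw [dg_TT]; show (_ + (N : F2)) • y = y; rw [hN, one_smul]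
  let Ψ : Kr H P × W → MS K × MS K := fun p =>
    ((un K (q_ne H hR p.1.1 p.2).1 : MS K), (un K (q_ne H hR p.1.1 p.2).2 : MS K))
  have hinj : Function.Injective Ψ := by
    rintro ⟨⟨u, hu⟩, y⟩ ⟨⟨u', hu'⟩, y'⟩ h
    have s0 := (ms_eq _ _).1 (congrArg Prod.fst h)
    have s1 := (ms_eq _ _).1 (congrArg Prod.snd h)
    have s0' : SqEq (algebraMap k[X] K (q0 a b P u y)) (algebraMap k[X] K (q0 a b P u' y')) := s0
    have s1' : SqEq (algebraMap k[X] K (q1 a b P u y)) (algebraMap k[X] K (q1 a b P u' y')) := s1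
    obtain ⟨k0, -⟩ := el_inj H.hk hR (mul_ne_zero one_ne_zero (rp_ne H y).1)
      (mul_ne_zero one_ne_zero (rp_ne H y').1) _ _ s0'
    obtain ⟨k1, -⟩ := el_inj H.hk hR (mul_ne_zero one_ne_zero (rp_ne H y).2)
      (mul_ne_zero one_ne_zero (rp_ne H y').2) _ _ s1'
    obtain ⟨g1, g2⟩ := q_exp H u y
    obtain ⟨g1', g2'⟩ := q_exp H u' y'
    have hE2 : ∀ {u : V ι (Tau a b)} (_ : u ∈ Kr H P) (y : W) (s : Tau a b),
        E2 (ι := ι) (datum H) (BT (QQ a b) P) (u + TT (datum H) y) (0 + ks (datum H).l y) s = 0 := by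
      intro u hu y s
      rw [E2_add, (kr_E H hcl hN hu).2 s, E2_TT (datum H) _ hcl, add_zero]
    have hv : u + TT (datum H) y = u' + TT (datum H) y' := by
      apply vec_ext
      · intro i
        rw [← g1, ← g1', k0, k1]
      · intro s
        rw [← g2, ← g2', k0, k1]
      · intro s hs
        rw [E2_zero H hcl (hE2 hu y) hs, E2_zero H hcl (hE2 hu' y') hs]
    have hy : y = y' := by
      have h3 := congrArg (dg (datum H) (fun i => ((P i).natDegree : F2))) hv
      rw [dg_add, dg_add, hdT, hdT, ((mem_Kr H).1 hu).1, ((mem_Kr H).1 hu').1, zero_add,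
        zero_add] at h3
      exact h3
    subst hy
    have hu'' : u = u' := add_right_cancel hv
    subst hu''
    rfl
  have hrange : Sl k (al K a P) (al K b P) = Set.range Ψ := by
    ext c
    constructor
    · rintro ⟨x, y, rfl, hls⟩
      obtain ⟨r0, r1, n0, n1, c0, c1, w, hr0, hr1, hc0, hc1, e0, e1, f1, f2, E1z, E2z⟩ :=
        sel_vec H hR hcl x.ne_zero y.ne_zero hls
      set z := dg (datum H) (fun i => ((P i).natDegree : F2)) w with hz
      set u := w + TT (datum H) z with hu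
      have ku1 : ∀ i, E1 (A := AT P) (datum H) (BT (QQ a b) P) (fun i => ((P i).natDegree : F2)) u
          ((ch r0, ch r1) + ks (datum H).l z) i = 0 := fun i => by
        rw [hu, E1_add, E1z, E1_TT, add_zero]
      have ku2 : ∀ s, E2 (ι := ι) (datum H) (BT (QQ a b) P) u
          ((ch r0, ch r1) + ks (datum H).l z) s = 0 := fun s => by
        rw [hu, E2_add, E2z, E2_TT (datum H) _ hcl, add_zero]
      have ku3 := FF_eq (datum H) (BT (QQ a b) P) _ _ _ ku1 ku2
      have hdu : dg (datum H) (fun i => ((P i).natDegree : F2)) u = 0 := by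
        rw [hu, dg_add, hdT, ← hz, W_add_self]
      have hx0 : ((ch r0, ch r1) : W) + ks (datum H).l z = 0 := by
        apply eq_zero_of_om
        intro t
        have h3 := ku3 (TT (datum H) t)
        rw [hdT, FF_comm (datum H) (BT (QQ a b) P) _ (AT_comm H.hm P),
          FF_eq (datum H) (BT (QQ a b) P) _ _ (ks (datum H).l t)
          (fun i => E1_TT (datum H) _ _ _ i) (fun s => E2_TT (datum H) _ hcl _ s), hdu,
          om_zero_right] at h3
        exact h3.symm
      have hmem : u ∈ Kr H P := by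
        rw [mem_Kr]
        refine ⟨hdu, fun v hv => ?_⟩
        rw [ku3, hv, om_zero_right]
      have hw : u + TT (datum H) z = w := by
        have h8 : (TT (datum H) z : V ι (Tau a b)) + TT (datum H) z = 0 := by
          apply Prod.ext
          · funext i
            exact W_add_self _
          · funext s
            exact F2_add_self _
        rw [hu, add_assoc, h8, add_zero]
      obtain ⟨g1, g2⟩ := q_exp H u z
      rw [hw] at g1 g2
      have hch : ((ch r0, ch r1) : W) = (ch (1 * rp0 a b z), ch (1 * rp1 a b z)) := by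
        rw [one_mul, one_mul, rp_ch H]
        exact F2_eq_of_W hx0
      have hn : ∀ x : ι ⊕ Tau a b, (((n0 x : F2), (n1 x : F2)) : W) =
          ((((nw0 a b u + np0 ι a b z) x : ℕ) : F2), (((nw1 a b u + np1 ι a b z) x : ℕ) : F2)) := by
        rintro (i | s)
        · rw [g1]; exact f1 i
        · rw [g2]; exact f2 s
      refine ⟨(⟨u, hmem⟩, z), ?_⟩
      apply Prod.ext
      · refine ((ms_eq _ _).2 ?_).symm
        rw [un_val]
        exact SqEq.trans ⟨c0, hc0, e0⟩ (glob_el hR hr0 (mul_ne_zero one_ne_zero (rp_ne H z).1) _ _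
          (fun x => congrArg Prod.fst (hn x)) (congrArg Prod.fst hch))
      · refine ((ms_eq _ _).2 ?_).symm
        rw [un_val]
        exact SqEq.trans ⟨c1, hc1, e1⟩ (glob_el hR hr1 (mul_ne_zero one_ne_zero (rp_ne H z).2) _ _
          (fun x => congrArg Prod.snd (hn x)) (congrArg Prod.snd hch))
    · rintro ⟨⟨⟨u, hu⟩, y⟩, rfl⟩
      refine ⟨_, _, rfl, ?_⟩
      have l1 := ls_ker (K := K) H hR hcl ((mem_Kr H).1 hu).1 (kr_E H hcl hN hu).1
        (kr_E H hcl hN hu).2
      obtain ⟨T, -, d0T, d1T⟩ := tor_T (K := K) H hR y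
      have l2 := ls_of_point (k := k) h2K haK hbK habK T
      rw [d0T, d1T] at l2
      have l3 : LSg (F := K) k (crv (al K a P) (al K b P)) (al K a P) (al K b P)
          (algebraMap k[X] K (el (RR a b P) 1 (nw0 a b u)) *
            algebraMap k[X] K (el (RR a b P) (rp0 a b y) (np0 ι a b y)))
          (algebraMap k[X] K (el (RR a b P) 1 (nw1 a b u)) *
            algebraMap k[X] K (el (RR a b P) (rp1 a b y) (np1 ι a b y))) :=
        ⟨fun v => locSol_mul (compAlgebra' k[X] K v K) (compAlgebra k[X] K v) h2K haK hbK habK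
          (l1.1 v) (l2.1 v), locSol_mul (compInfAlgebra' k K K) (compInfAlgebra k K) h2K haK hbK
          habK l1.2 l2.2⟩
      rw [← map_mul, ← map_mul, el_mul, el_mul] at l3
      exact l3
  rw [hrange, ← Nat.card_coe_set_eq, Nat.card_range_of_injective hinj, Nat.card_prod, card_Kr,
    pow_add, mul_comm]
  congr 1
  rw [Nat.card_eq_fintype_card]
  rfl

end

end Pool.Agent.V8H26.XA
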