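import Pool.Agent.V8H26.XA.Coc
import Pool.Agent.V8H26.XA.Sel
import Pool.Agent.V8H26.XL.Man
import Pool.Agent.Y164.PS.Cla

/-!
# The 2-Selmer group and the group of points
-/

set_option autoImplicit false
set_option linter.all false

open Polynomial IsDedekindDomain WeierstrassCurve WeierstrassCurve.Affine
open scoped Classical

namespace Pool.Agent.V8H26.XA

open Pool.Agent.TH115.GD Pool.Agent.H341R2.Sharp Finset Pool.Agent.Y164.PS

section
variable {k K : Type} [Field k] [Field K] [Algebra k[X] K] [IsFractionRing k[X] K] {α β : K}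

/-- the classes of a point -/
noncomputable def kap (h2 : (2 : K) ≠ 0) (hα : α ≠ 0) (hβ : β ≠ 0) (hαβ : α ≠ β)
    (Q : Pt (crv α β) K) : MS K × MS K :=
  ((Units.mk0 (d0 α β Q) (d0_ne (isE α β K h2 hα hβ hαβ) Q) : MS K),
    (Units.mk0 (d1 α β Q) (d1_ne (isE α β K h2 hα hβ hαβ) Q) : MS K))

theorem kap_add (h2 : (2 : K) ≠ 0) (hα : α ≠ 0) (hβ : β ≠ 0) (hαβ : α ≠ β)
    (P Q : Pt (crv α β) K) :
    kap h2 hα hβ hαβ (P + Q) = kap h2 hα hβ hαβ P * kap h2 hα hβ hαβ Q := by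
  obtain ⟨u0, u1, m0, m1, f0, f1⟩ := d_add (K := K) (F := K) (Ω := Sep K)
    (crv α β) (isE α β (Sep K) h2 hα hβ hαβ) P Q
  have hE := isE α β K h2 hα hβ hαβ
  apply Prod.ext
  · have h3 : ((Units.mk0 (d0 α β (P + Q)) (d0_ne hE (P + Q)) : Kˣ) : MS K) =
        ((Units.mk0 (d0 α β P) (d0_ne hE P) * Units.mk0 (d0 α β Q) (d0_ne hE Q) : Kˣ) : MS K) :=
      (ms_eq _ _).2 ⟨u0, m0, f0⟩
    rw [QuotientGroup.mk_mul] at h3
    exact h3
  · have h3 : ((Units.mk0 (d1 α β (P + Q)) (d1_ne hE (P + Q)) : Kˣ) : MS K) =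
        ((Units.mk0 (d1 α β P) (d1_ne hE P) * Units.mk0 (d1 α β Q) (d1_ne hE Q) : Kˣ) : MS K) :=
      (ms_eq _ _).2 ⟨u1, m1, f1⟩
    rw [QuotientGroup.mk_mul] at h3
    exact h3

theorem ms_sq {K : Type} [Field K] (c : MS K × MS K) : c * c = 1 := by
  have key : ∀ x : MS K, x * x = 1 := by
    intro x
    obtain ⟨u, rfl⟩ := QuotientGroup.mk_surjective x
    rw [← QuotientGroup.mk_mul]
    have h1 : ((u * u : Kˣ) : MS K) = ((1 : Kˣ) : MS K) := by
      refine (ms_eq _ _).2 ⟨(u : K), u.ne_zero, ?_⟩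
      rw [Units.val_mul, Units.val_one, mul_one, pow_two]
    rw [h1]
    rfl
  exact Prod.ext (key _) (key _)

/-- at most four points are killed by two -/
theorem tor_le (h2 : (2 : K) ≠ 0) (hα : α ≠ 0) (hβ : β ≠ 0) (hαβ : α ≠ β)
    (dbl : Pt (crv α β) K →+ Pt (crv α β) K) (hd : ∀ Q, dbl Q = Q + Q) :
    Nat.card dbl.ker ≤ 4 := by
  have hE := isE α β K h2 hα hβ hαβ
  have t0 : ((crv α β).baseChange K).toAffine.Nonsingular 0 0 := hE.nonsingular.2 (by ring)
  have ta : ((crv α β).baseChange K).toAffine.Nonsingular α 0 :=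
    hE.nonsingular.2 (by rw [Algebra.algebraMap_self_apply]; ring)
  have tb : ((crv α β).baseChange K).toAffine.Nonsingular β 0 :=
    hE.nonsingular.2 (by rw [Algebra.algebraMap_self_apply, Algebra.algebraMap_self_apply]; ring)
  have hz : ∀ Q : Pt (crv α β) K, Q + Q = 0 → Q ∈ dbl.ker := fun Q h => by
    rw [AddMonoidHom.mem_ker, hd, h]
  have m0 : (Point.some 0 0 t0 : Pt (crv α β) K) ∈ dbl.ker := hz _ ((add_self_eq_zero_iff hE t0).2 rfl)
  have ma : (Point.some α 0 ta : Pt (crv α β) K) ∈ dbl.ker := hz _ ((add_self_eq_zero_iff hE ta).2 rfl)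
  have mb : (Point.some β 0 tb : Pt (crv α β) K) ∈ dbl.ker := hz _ ((add_self_eq_zero_iff hE tb).2 rfl)
  have hsurj : Function.Surjective (![⟨0, dbl.ker.zero_mem⟩, ⟨_, m0⟩, ⟨_, ma⟩, ⟨_, mb⟩] :
      Fin 4 → dbl.ker) := by
    rintro ⟨Q, hQ⟩
    rw [AddMonoidHom.mem_ker, hd] at hQ
    rcases tor_cases hE hQ with ⟨rfl, -⟩ | ⟨hn, rfl, -⟩ | ⟨hn, rfl, -⟩ | ⟨hn, rfl, -⟩
    · exact ⟨0, rfl⟩
    · exact ⟨1, rfl⟩
    · exact ⟨2, rfl⟩
    · exact ⟨3, rfl⟩
  have := Nat.card_le_card_of_surjective _ hsurj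
  have h4 : Nat.card (Fin (Nat.succ 3)) = 4 := by
    rw [Nat.card_eq_fintype_card, Fintype.card_fin]
  rwa [h4] at this

/-- if the group of points is finite and the Tate-Shafarevich group has no 2-primary part, then
the 2-Selmer group has order at most four -/
theorem sl_le (h2 : (2 : K) ≠ 0) (hα : α ≠ 0) (hβ : β ≠ 0) (hαβ : α ≠ β)
    (hfin : Finite (Pt (crv α β) K)) (hS : ShaTwo k (crv α β)) : (Sl k α β).ncard ≤ 4 := by
  let φ := AddMonoidHom.mk' (M := Pt (crv α β) K) (G := Additive (MS K × MS K))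
    (fun Q => Additive.ofMul (kap h2 hα hβ hαβ Q)) fun P Q => by
      rw [kap_add h2 hα hβ hαβ, ofMul_mul]
  let dbl : Pt (crv α β) K →+ Pt (crv α β) K :=
    { toFun := fun Q => Q + Q
      map_zero' := add_zero 0
      map_add' := fun P Q => add_add_add_comm P Q P Q }
  have hker : dbl.range ≤ φ.ker := by
    rintro _ ⟨R, rfl⟩
    rw [AddMonoidHom.mem_ker]
    show φ (R + R) = 0
    rw [map_add]
    exact ms_sq (kap h2 hα hβ hαβ R)
  have k1 : Nat.card φ.range * Nat.card φ.ker = Nat.card (Pt (crv α β) K) := by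
    rw [← Nat.card_congr (QuotientAddGroup.quotientKerEquivRange φ).toEquiv]
    exact (AddSubgroup.card_eq_card_quotient_mul_card_addSubgroup φ.ker).symm
  have k2 : Nat.card dbl.range * Nat.card dbl.ker = Nat.card (Pt (crv α β) K) := by
    rw [← Nat.card_congr (QuotientAddGroup.quotientKerEquivRange dbl).toEquiv]
    exact (AddSubgroup.card_eq_card_quotient_mul_card_addSubgroup dbl.ker).symm
  have k3 : Nat.card dbl.range ≤ Nat.card φ.ker :=
    Nat.card_le_card_of_injective (AddSubgroup.inclusion hker)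
      (AddSubgroup.inclusion_injective hker)
  have k4 := tor_le h2 hα hβ hαβ dbl (fun _ => rfl)
  have kpos : 0 < Nat.card dbl.range := Nat.card_pos
  have k5 : Nat.card φ.range ≤ 4 := by
    have h1 : Nat.card dbl.range * Nat.card φ.range ≤ Nat.card dbl.range * 4 := by
      calc Nat.card dbl.range * Nat.card φ.range ≤ Nat.card φ.ker * Nat.card φ.range :=
            Nat.mul_le_mul_right _ k3
        _ = Nat.card dbl.range * Nat.card dbl.ker := by rw [k2, ← k1, Nat.mul_comm]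
        _ ≤ _ := Nat.mul_le_mul_left _ k4
    exact Nat.le_of_mul_le_mul_left h1 kpos
  have hsub : Sl k α β ⊆ Set.range (kap h2 hα hβ hαβ) := by
    rintro _ ⟨x, y, rfl, hls⟩
    obtain ⟨Q, q0, q1⟩ := pt_of_sha h2 hα hβ hαβ hS x.ne_zero y.ne_zero hls
    exact ⟨Q, Prod.ext ((ms_eq _ _).2 q0).symm ((ms_eq _ _).2 q1).symm⟩
  have hfr : (Set.range (kap h2 hα hβ hαβ)).Finite := Set.finite_range _
  refine (Set.ncard_le_ncard hsub hfr).trans ?_
  rw [← Nat.card_coe_set_eq]
  exact k5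

end

section
variable {k K : Type} [Field k] [Fintype k] [DecidableEq k] [Field K] [Algebra k[X] K]
  [IsFractionRing k[X] K]
variable {a b : k[X]} {N : ℕ} (H : Hyp a b N)
variable {ι : Type} [Fintype ι] {P : ι → k[X]} (hR : Fam (RR a b P))

include hR in
/-- the kernel is zero if and only if the group of points is finite and the Tate-Shafarevich group
has no 2-primary part -/
theorem rk_zero_iff (hcl : cl (datum H) (QQ a b) P)
    (hN : ∑ i, ((P i).natDegree : F2) + (N : F2) = 1) :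
    Pool.Agent.V8H26.XL.rk H P = 0 ↔
      Finite (Pt (crv (al K a P) (al K b P)) K) ∧ ShaTwo k (crv (al K a P) (al K b P)) := by
  have h2 := two_ne H
  obtain ⟨t1, t2, t3⟩ := tw_ne H hR
  have inj := IsFractionRing.injective k[X] K
  have h2K : (2 : K) ≠ 0 := tt h2
  have haK : al K a P ≠ 0 := by
    rw [al, Ne, IsFractionRing.to_map_eq_zero_iff]; exact t1
  have hbK : al K b P ≠ 0 := by
    rw [al, Ne, IsFractionRing.to_map_eq_zero_iff]; exact t2
  have habK : al K a P ≠ al K b P := fun h => t3 (inj h)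
  constructor
  · intro h
    have hT : Triv (datum H) (AT P) (BT (QQ a b) P) (fun i => ((P i).natDegree : F2)) :=
      (Pool.Agent.V8H26.XL.triv_iff_r0 (D := datum H) (d := Pool.Agent.V8H26.XL.dm P)
        (Pool.Agent.V8H26.XL.arr H.hm (QQ a b) P)).2 h
    obtain ⟨g1, g2⟩ := good_of_triv (K := K) H hR hcl hN hT
    exact ⟨fin_points h2 t1 t2 t3 g2, g1⟩
  · rintro ⟨h, h'⟩
    have h3 := sl_le (k := k) h2K haK hbK habK h h'
    rw [sel_card H hR hcl hN] at h3
    by_contra h4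
    have h5 : 2 ^ 3 ≤ 2 ^ (2 + Pool.Agent.V8H26.XL.rk H P) :=
      Nat.pow_le_pow_right (by norm_num) (by omega)
    omega

end

end Pool.Agent.V8H26.XA
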