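import Pool.Agent.V8H26.XA.Loc

/-!
# Local solubility at the places of good reduction
-/

set_option autoImplicit false
set_option linter.all false

open Polynomial IsDedekindDomain WeierstrassCurve WeierstrassCurve.Affine
open scoped Classical

namespace Pool.Agent.V8H26.XA

open Pool.Agent.TH115.GD Pool.Agent.H341R2.Sharp Finset Pool.Agent.Y164.PS

section finite
variable {κ : Type} [Field κ] [Fintype κ] {α β : κ}

theorem finite_pt (α β : κ) : Finite (Pt (crv α β) κ) := by
  have h : Function.Injective (fun Q : Pt (crv α β) κ => (match Q with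
    | .zero => none
    | .some x y _ => some (x, y) : Option (κ × κ))) := by
    rintro (_ | ⟨x, y, h⟩) (_ | ⟨x', y', h'⟩) e
    · rfl
    · cases e
    · cases e
    · simp only [Option.some.injEq, Prod.mk.injEq] at e
      obtain ⟨rfl, rfl⟩ := e
      rfl
  exact Finite.of_injective _ h

/-- over a finite field all pairs of classes are classes of points -/
theorem fin_cover (h2 : (2 : κ) ≠ 0) (hα : α ≠ 0) (hβ : β ≠ 0) (hαβ : α ≠ β) {c0 c1 : κ}
    (n0 : c0 ≠ 0) (n1 : c1 ≠ 0) :
    ∃ Q : Pt (crv α β) κ, SqEq c0 (d0 α β Q) ∧ SqEq c1 (d1 α β Q) := by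
  have hE := isE α β κ h2 hα hβ hαβ
  haveI := finite_pt α β
  have dn0 : ∀ Q : Pt (crv α β) κ, d0 α β Q ≠ 0 := d0_ne hE
  have dn1 : ∀ Q : Pt (crv α β) κ, d1 α β Q ≠ 0 := d1_ne hE
  have chsq : ∀ {u : κ}, u ≠ 0 → ch (u ^ 2) = 0 := fun {u} hu =>
    (ch_eq_zero_iff (pow_ne_zero 2 hu)).2 ⟨u, pow_two u⟩
  -- the homomorphism
  let φ : Pt (crv α β) κ →+ W :=
    { toFun := fun Q => (ch (d0 α β Q), ch (d1 α β Q))
      map_zero' := by
        have c1' : ch (1 : κ) = 0 := (ch_eq_zero_iff one_ne_zero).2 ⟨1, (mul_one 1).symm⟩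
        show ((ch (1 : κ), ch (1 : κ)) : W) = 0
        rw [c1']
        rfl
      map_add' := by
        intro P Q
        obtain ⟨u0, u1, m0, m1, f0, f1⟩ := d_add (K := κ) (F := κ) (Ω := Sep κ)
          (crv α β) (isE α β (Sep κ) h2 hα hβ hαβ) P Q
        have g0 : d0 α β (P + Q) = u0 ^ 2 * (d0 α β P * d0 α β Q) := f0
        have g1 : d1 α β (P + Q) = u1 ^ 2 * (d1 α β P * d1 α β Q) := f1
        show ((ch (d0 α β (P + Q)), ch (d1 α β (P + Q))) : W) =
          (ch (d0 α β P), ch (d1 α β P)) + (ch (d0 α β Q), ch (d1 α β Q))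
        rw [g0, g1, ch_mul (pow_ne_zero 2 m0) (mul_ne_zero (dn0 P) (dn0 Q)),
          ch_mul (pow_ne_zero 2 m1) (mul_ne_zero (dn1 P) (dn1 Q)), chsq m0, chsq m1,
          ch_mul (dn0 P) (dn0 Q), ch_mul (dn1 P) (dn1 Q), zero_add, zero_add]
        rfl }
  let dbl : Pt (crv α β) κ →+ Pt (crv α β) κ :=
    { toFun := fun Q => Q + Q
      map_zero' := add_zero 0
      map_add' := fun P Q => add_add_add_comm P Q P Q }
  have hker : φ.ker ≤ dbl.range := by
    intro Q hQ
    rw [AddMonoidHom.mem_ker] at hQ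
    have q0 : ch (d0 α β Q) = 0 := congrArg Prod.fst hQ
    have q1 : ch (d1 α β Q) = 0 := congrArg Prod.snd hQ
    have sq : ∀ {u : κ}, u ≠ 0 → ch u = 0 → SqEq u 1 := by
      intro u hu h
      obtain ⟨z, hz⟩ := (ch_eq_zero_iff hu).1 h
      refine ⟨z, ?_, by rw [hz]; ring⟩
      rintro rfl
      rw [mul_zero] at hz
      exact hu hz
    obtain ⟨R, hR⟩ := half_F (K := κ) (F := κ) h2 hα hβ hαβ Q (sq (dn0 Q) q0) (sq (dn1 Q) q1)
    exact ⟨R, hR⟩
  have k1 : Nat.card φ.range * Nat.card φ.ker = Nat.card (Pt (crv α β) κ) := by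
    rw [← Nat.card_congr (QuotientAddGroup.quotientKerEquivRange φ).toEquiv]
    exact (AddSubgroup.card_eq_card_quotient_mul_card_addSubgroup φ.ker).symm
  have k2 : Nat.card dbl.range * Nat.card dbl.ker = Nat.card (Pt (crv α β) κ) := by
    rw [← Nat.card_congr (QuotientAddGroup.quotientKerEquivRange dbl).toEquiv]
    exact (AddSubgroup.card_eq_card_quotient_mul_card_addSubgroup dbl.ker).symm
  have k3 : Nat.card φ.ker ≤ Nat.card dbl.range :=
    Nat.card_le_card_of_injective (AddSubgroup.inclusion hker)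
      (AddSubgroup.inclusion_injective hker)
  -- four points of order two
  have t0 : ((crv α β).baseChange κ).toAffine.Nonsingular 0 0 := hE.nonsingular.2 (by ring)
  have ta : ((crv α β).baseChange κ).toAffine.Nonsingular α 0 :=
    hE.nonsingular.2 (by rw [Algebra.algebraMap_self_apply]; ring)
  have tb : ((crv α β).baseChange κ).toAffine.Nonsingular β 0 :=
    hE.nonsingular.2 (by rw [Algebra.algebraMap_self_apply, Algebra.algebraMap_self_apply]; ring)
  have k4 : 4 ≤ Nat.card dbl.ker := by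
    have m0 : (Point.some 0 0 t0 : Pt (crv α β) κ) ∈ dbl.ker :=
      (add_self_eq_zero_iff hE t0).2 rfl
    have ma : (Point.some α 0 ta : Pt (crv α β) κ) ∈ dbl.ker :=
      (add_self_eq_zero_iff hE ta).2 rfl
    have mb : (Point.some β 0 tb : Pt (crv α β) κ) ∈ dbl.ker :=
      (add_self_eq_zero_iff hE tb).2 rfl
    have hinj : Function.Injective (![⟨0, dbl.ker.zero_mem⟩, ⟨_, m0⟩, ⟨_, ma⟩, ⟨_, mb⟩] :
        Fin 4 → dbl.ker) := by
      have n1 : (0 : Pt (crv α β) κ) ≠ Point.some 0 0 t0 := by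
        intro h; cases h
      have n2 : (0 : Pt (crv α β) κ) ≠ Point.some α 0 ta := by
        intro h; cases h
      have n3 : (0 : Pt (crv α β) κ) ≠ Point.some β 0 tb := by
        intro h; cases h
      have n4 : (Point.some 0 0 t0 : Pt (crv α β) κ) ≠ Point.some α 0 ta := by
        intro h
        rw [Point.some.injEq] at h
        exact hα h.1.symm
      have n5 : (Point.some 0 0 t0 : Pt (crv α β) κ) ≠ Point.some β 0 tb := by
        intro h
        rw [Point.some.injEq] at h
        exact hβ h.1.symm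
      have n6 : (Point.some α 0 ta : Pt (crv α β) κ) ≠ Point.some β 0 tb := by
        intro h
        rw [Point.some.injEq] at h
        exact hαβ h.1
      intro i j h
      have h' := congrArg Subtype.val h
      fin_cases i <;> fin_cases j <;> first
        | rfl
        | exact absurd h' n1
        | exact absurd h' n2
        | exact absurd h' n3
        | exact absurd h' n4
        | exact absurd h' n5
        | exact absurd h' n6
        | exact absurd h'.symm n1
        | exact absurd h'.symm n2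
        | exact absurd h'.symm n3
        | exact absurd h'.symm n4
        | exact absurd h'.symm n5
        | exact absurd h'.symm n6
    have := Nat.card_le_card_of_injective _ hinj
    rwa [Nat.card_eq_fintype_card, Fintype.card_fin] at this
  have kpos : 0 < Nat.card dbl.range := Nat.card_pos
  have k5 : 4 ≤ Nat.card φ.range := by
    have h1 : Nat.card dbl.range * 4 ≤ Nat.card dbl.range * Nat.card φ.range := by
      calc Nat.card dbl.range * 4 ≤ Nat.card dbl.range * Nat.card dbl.ker :=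
            Nat.mul_le_mul_left _ k4
        _ = Nat.card φ.range * Nat.card φ.ker := by rw [k2, k1]
        _ ≤ Nat.card φ.range * Nat.card dbl.range := Nat.mul_le_mul_left _ k3
        _ = _ := Nat.mul_comm _ _
    exact Nat.le_of_mul_le_mul_left h1 kpos
  have k6 : φ.range = ⊤ := by
    apply AddSubgroup.eq_top_of_card_eq
    have h1 : Nat.card W = 4 := by
      rw [Nat.card_eq_fintype_card]
      rfl
    have h2 : Nat.card φ.range ≤ Nat.card W :=
      Nat.card_le_card_of_injective (Subtype.val : φ.range → W) Subtype.val_injective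
    omega
  obtain ⟨Q, hQ⟩ : ((ch c0, ch c1) : W) ∈ φ.range := by rw [k6]; trivial
  have q0 : ch (d0 α β Q) = ch c0 := congrArg Prod.fst hQ
  have q1 : ch (d1 α β Q) = ch c1 := congrArg Prod.snd hQ
  have sq : ∀ {u w : κ}, u ≠ 0 → w ≠ 0 → ch w = ch u → SqEq u w := by
    intro u w hu hw h
    have h3 : ch (u * w) = 0 := by rw [ch_mul hu hw, h, F2_add_self]
    obtain ⟨z, hz⟩ := (ch_eq_zero_iff (mul_ne_zero hu hw)).1 h3
    have hz0 : z ≠ 0 := by
      rintro rfl
      rw [mul_zero] at hz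
      exact mul_ne_zero hu hw hz
    refine ⟨z / w, div_ne_zero hz0 hw, ?_⟩
    field_simp
    rw [pow_two, ← hz]
  exact ⟨Q, sq n0 (dn0 Q) q0, sq n1 (dn1 Q) q1⟩

end finite

section place
variable {k K : Type} [Field k] [Finite k] [Field K] [Algebra k[X] K]
  [IsFractionRing k[X] K]

theorem sqEq_mk (h2 : (2 : k) ≠ 0) (v : HeightOneSpectrum k[X]) {π : k[X]}
    [Fact (Irreducible π)] (hv : ∀ p, p ∈ v.asIdeal ↔ π ∣ p) {f g : k[X]} (hf : ¬ π ∣ f)
    (hg : ¬ π ∣ g) (h : SqEq (AdjoinRoot.mk π f) (AdjoinRoot.mk π g)) :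
    SqEq (algebraMap K (Comp k[X] K v) (algebraMap k[X] K f))
      (algebraMap K (Comp k[X] K v) (algebraMap k[X] K g)) := by
  obtain ⟨c, hc, e⟩ := h
  obtain ⟨c', rfl⟩ := AdjoinRoot.mk_surjective c
  have h1 : π ∣ f - c' ^ 2 * g := by
    rw [← AdjoinRoot.mk_eq_zero, map_sub, map_mul, map_pow, e, sub_self]
  refine sqEq_loc h2 v hv hf hg (z := c' * g) ?_
  have h3 : (c' * g) ^ 2 - f * g = -(g * (f - c' ^ 2 * g)) := by ring
  rw [h3]
  exact (dvd_neg).2 (h1.mul_left _)

theorem good_pl (h2 : (2 : k) ≠ 0) (v : HeightOneSpectrum k[X]) {π : k[X]} (hπ : Irreducible π)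
    (hv : ∀ p, p ∈ v.asIdeal ↔ π ∣ p) {A B p0 p1 : k[X]} (hA : ¬ π ∣ A) (hB : ¬ π ∣ B)
    (hAB : ¬ π ∣ A - B) (h0 : ¬ π ∣ p0) (h1 : ¬ π ∣ p1) :
    (∃ T : Pt (crv (algebraMap k[X] K A) (algebraMap k[X] K B)) K,
      SqEq (algebraMap K (Comp k[X] K v) (algebraMap k[X] K p0))
        (algebraMap K (Comp k[X] K v) (d0 (algebraMap k[X] K A) (algebraMap k[X] K B) T)) ∧
      SqEq (algebraMap K (Comp k[X] K v) (algebraMap k[X] K p1))
        (algebraMap K (Comp k[X] K v) (d1 (algebraMap k[X] K A) (algebraMap k[X] K B) T))) ∨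
    ∃ x y : Comp k[X] K v,
      y ^ 2 = x * (x - algebraMap K (Comp k[X] K v) (algebraMap k[X] K A)) *
        (x - algebraMap K (Comp k[X] K v) (algebraMap k[X] K B)) ∧ x ≠ 0 ∧
      x ≠ algebraMap K (Comp k[X] K v) (algebraMap k[X] K A) ∧
      SqEq (algebraMap K (Comp k[X] K v) (algebraMap k[X] K p0)) x ∧
      SqEq (algebraMap K (Comp k[X] K v) (algebraMap k[X] K p1))
        (x - algebraMap K (Comp k[X] K v) (algebraMap k[X] K A)) := by
  haveI : Fact (Irreducible π) := ⟨hπ⟩
  haveI : Module.Finite k (AdjoinRoot π) := (AdjoinRoot.powerBasis hπ.ne_zero).finite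
  haveI : Finite (AdjoinRoot π) := Module.finite_of_finite k
  letI : Fintype (AdjoinRoot π) := Fintype.ofFinite _
  have h2K : (2 : K) ≠ 0 := tt h2
  set m := AdjoinRoot.mk π with hm
  have mne : ∀ {f : k[X]}, ¬ π ∣ f → m f ≠ 0 := fun h h' => h (AdjoinRoot.mk_eq_zero.1 h')
  have h2κ : (2 : AdjoinRoot π) ≠ 0 := by
    have h3 : m (C 2) ≠ 0 := mne fun hd => hπ.not_isUnit (isUnit_of_dvd_unit hd
      (isUnit_C.2 (isUnit_iff_ne_zero.2 h2)))
    have h4 : m (C 2) = 2 := by rw [map_ofNat, map_ofNat]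
    rwa [h4] at h3
  have kab : m A ≠ m B := fun h => hAB (by rw [← AdjoinRoot.mk_eq_zero, map_sub]; exact sub_eq_zero.2 h)
  have ane : A ≠ 0 := by rintro rfl; exact hA (dvd_zero _)
  have bne : B ≠ 0 := by rintro rfl; exact hB (dvd_zero _)
  have inj := IsFractionRing.injective k[X] K
  have haK : algebraMap k[X] K A ≠ 0 := by simpa using ane
  have hbK : algebraMap k[X] K B ≠ 0 := by simpa using bne
  have habK : algebraMap k[X] K A ≠ algebraMap k[X] K B := fun h => hAB (by
    rw [inj h, sub_self]; exact dvd_zero _)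
  obtain ⟨⟨T1, -, o2, o3⟩, ⟨T2, -, o5, o6⟩⟩ := tor_pt h2K haK hbK habK
  obtain ⟨T3, -, o8, o9⟩ := tor_pt3 h2K haK hbK habK
  have ndm : ∀ {f g : k[X]}, ¬ π ∣ f → ¬ π ∣ g → ¬ π ∣ f * g := fun hf hg h =>
    (hπ.prime.dvd_or_dvd h).elim hf hg
  have ndn : ∀ {f : k[X]}, ¬ π ∣ f → ¬ π ∣ -f := fun hf h => hf ((dvd_neg).1 h)
  obtain ⟨Q, q0, q1⟩ := fin_cover h2κ (mne hA) (mne hB) kab (mne h0) (mne h1)
  have hE := isE (m A) (m B) (AdjoinRoot π) h2κ (mne hA) (mne hB) kab
  rcases Q with _ | ⟨x, y, hxy⟩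
  · left
    refine ⟨0, ?_, ?_⟩
    · have h3 : SqEq (m p0) (m 1) := by rw [map_one]; exact q0
      have h4 := sqEq_mk (K := K) h2 v hv h0 (fun h => hπ.not_isUnit (isUnit_of_dvd_one h)) h3
      rwa [map_one] at h4
    · have h3 : SqEq (m p1) (m 1) := by rw [map_one]; exact q1
      have h4 := sqEq_mk (K := K) h2 v hv h1 (fun h => hπ.not_isUnit (isUnit_of_dvd_one h)) h3
      rwa [map_one] at h4
  · simp only [d0, d1] at q0 q1
    by_cases x0 : x = 0
    · left
      refine ⟨T1, ?_, ?_⟩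
      · rw [if_pos x0, ← map_mul] at q0
        have h4 := sqEq_mk (K := K) h2 v hv h0 (ndm hA hB) q0
        rw [o2, ← map_mul (algebraMap k[X] K)]
        exact h4
      · rw [if_neg (by rw [x0]; exact (mne hA).symm), x0, zero_sub, ← map_neg] at q1
        have h4 := sqEq_mk (K := K) h2 v hv h1 (ndn hA) q1
        rw [o3, ← map_neg (algebraMap k[X] K)]
        exact h4
    by_cases xa : x = m A
    · left
      refine ⟨T2, ?_, ?_⟩
      · rw [if_neg x0, xa] at q0
        have h4 := sqEq_mk (K := K) h2 v hv h0 hA q0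
        rw [o5]
        exact h4
      · rw [if_pos xa, ← map_sub, ← map_mul] at q1
        have h4 := sqEq_mk (K := K) h2 v hv h1 (ndm hA hAB) q1
        rw [o6, ← map_sub (algebraMap k[X] K), ← map_mul (algebraMap k[X] K)]
        exact h4
    by_cases xb : x = m B
    · left
      refine ⟨T3, ?_, ?_⟩
      · rw [if_neg x0, xb] at q0
        have h4 := sqEq_mk (K := K) h2 v hv h0 hB q0
        rw [o8]
        exact h4
      · rw [if_neg xa, xb, ← map_sub] at q1
        have h4 := sqEq_mk (K := K) h2 v hv h1 (fun h => hAB (by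
          have : A - B = -(B - A) := by ring
          rw [this]; exact (dvd_neg).2 h)) q1
        rw [o9, ← map_sub (algebraMap k[X] K)]
        exact h4
    right
    rw [if_neg x0] at q0
    rw [if_neg xa] at q1
    have he : y ^ 2 = x * (x - m A) * (x - m B) := hE.nonsingular.1 hxy
    obtain ⟨x', rfl⟩ := AdjoinRoot.mk_surjective x
    obtain ⟨y', rfl⟩ := AdjoinRoot.mk_surjective y
    have nx : ¬ π ∣ x' := fun h => x0 (AdjoinRoot.mk_eq_zero.2 h)
    have nxa : ¬ π ∣ x' - A := fun h => xa (by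
      have h5 := AdjoinRoot.mk_eq_zero.2 h
      rw [map_sub] at h5
      exact sub_eq_zero.1 h5)
    have nxb : ¬ π ∣ x' - B := fun h => xb (by
      have h5 := AdjoinRoot.mk_eq_zero.2 h
      rw [map_sub] at h5
      exact sub_eq_zero.1 h5)
    set j := algebraMap K (Comp k[X] K v) with hj
    have h3 : SqEq (m (x' * (x' - A) * (x' - B))) (m 1) := by
      refine ⟨m y', ?_, ?_⟩
      · intro h5
        rw [h5, zero_pow two_ne_zero, ← map_sub, ← map_sub, ← map_mul, ← map_mul] at he
        exact mne (ndm (ndm nx nxa) nxb) he.symm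
      · rw [map_one, mul_one, he]
        simp only [map_mul, map_sub]
        rfl
    have h4 := sqEq_mk (K := K) h2 v hv (ndm (ndm nx nxa) nxb)
      (fun h => hπ.not_isUnit (isUnit_of_dvd_one h)) h3
    obtain ⟨y'', -, ey⟩ := h4
    rw [map_one, map_one, mul_one] at ey
    refine ⟨j (algebraMap k[X] K x'), y'', ?_, ?_, ?_, ?_, ?_⟩
    · rw [← ey]
      simp only [map_mul, map_sub]
      rfl
    · intro h5
      apply nx
      have h6 : algebraMap k[X] K x' = 0 := by simpa using h5
      have h7 : x' = 0 := by simpa using h6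
      rw [h7]; exact dvd_zero _
    · intro h5
      apply nxa
      have h6 := inj (j.injective h5)
      rw [h6, sub_self]; exact dvd_zero _
    · exact sqEq_mk (K := K) h2 v hv h0 nx q0
    · rw [← map_sub, ← map_sub]
      rw [← map_sub] at q1
      exact sqEq_mk (K := K) h2 v hv h1 nxa q1

end place

end Pool.Agent.V8H26.XA
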