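import Pool.Agent.V8H26.XL.Man
import Pool.Agent.Y164.PS.Cla

/-!
# Local squares
-/

set_option autoImplicit false
set_option linter.all false

open Polynomial IsDedekindDomain WeierstrassCurve WeierstrassCurve.Affine
open scoped Classical

namespace Pool.Agent.V8H26.XA

open Pool.Agent.TH115.GD Pool.Agent.H341R2.Sharp Finset Pool.Agent.Y164.PS

section
variable {k K : Type} [Field k] [Field K] [Algebra k[X] K] [IsFractionRing k[X] K]

/-- units whose product is a square modulo the place -/
theorem sqEq_loc (h2 : (2 : k) ≠ 0) (v : HeightOneSpectrum k[X]) {π : k[X]}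
    (hv : ∀ p, p ∈ v.asIdeal ↔ π ∣ p) {f g z : k[X]} (hf : ¬ π ∣ f) (hg : ¬ π ∣ g)
    (h : π ∣ z ^ 2 - f * g) :
    SqEq (algebraMap K (Comp k[X] K v) (algebraMap k[X] K f))
      (algebraMap K (Comp k[X] K v) (algebraMap k[X] K g)) := by
  have hH : Hens (wv v (F := K)) := hensK v h2
  have f0 : f ≠ 0 := by rintro rfl; exact hf (dvd_zero _)
  have g0 : g ≠ 0 := by rintro rfl; exact hg (dvd_zero _)
  set j := algebraMap K (Comp k[X] K v) with hj
  have jf : j (algebraMap k[X] K f) ≠ 0 := by simpa using f0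
  have jg : j (algebraMap k[X] K g) ≠ 0 := by simpa using g0
  have hfg : f * g ∉ v.asIdeal := fun hm => by
    rcases v.isPrime.mem_or_mem hm with h' | h'
    · exact hf ((hv f).1 h')
    · exact hg ((hv g).1 h')
  have h1 : SqEq (j (algebraMap k[X] K (z ^ 2))) (j (algebraMap k[X] K (f * g))) := by
    apply near hH
    rw [← map_sub, ← map_sub, wv_coe, wv_coe, (valK_one v).2 hfg, valK_lt, hv]
    exact h
  obtain ⟨c, hc, e⟩ := h1
  have hz : j (algebraMap k[X] K z) ≠ 0 := by
    intro h0
    rw [map_pow, map_pow, h0, map_mul, map_mul, zero_pow two_ne_zero] at e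
    exact mul_ne_zero (pow_ne_zero 2 hc) (mul_ne_zero jf jg) e.symm
  refine ⟨j (algebraMap k[X] K z) / (c * j (algebraMap k[X] K g)),
    div_ne_zero hz (mul_ne_zero hc jg), ?_⟩
  rw [map_pow, map_pow, map_mul, map_mul] at e
  rw [div_pow, mul_pow, e]
  field_simp

/-- monic polynomials of even degree are squares at infinity -/
theorem sq_inf' (h2 : (2 : k) ≠ 0) {P : k[X]} (hP : P.Monic) (he : Even P.natDegree) :
    SqEq (algebraMap K (CompInf k K) (algebraMap k[X] K P)) 1 := by
  have hH : Hens (wi k K) := hensK (F := AtInf K) (pl (0 : k)) h2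
  obtain ⟨m, hm⟩ := he
  have hX : (X : k[X]) ^ (2 * m) ≠ 0 := pow_ne_zero _ X_ne_zero
  have h1 : SqEq (algebraMap K (CompInf k K) (algebraMap k[X] K P))
      (algebraMap K (CompInf k K) (algebraMap k[X] K (X ^ (2 * m)))) := by
    apply near hH
    rw [← map_sub, ← map_sub, wi_coe, wi_coe, vInf_poly hX, natDegree_X_pow]
    by_cases h0 : P - X ^ (2 * m) = 0
    · rw [h0, map_zero, map_zero]
      exact WithZero.exp_pos
    · rw [vInf_poly h0, WithZero.exp_lt_exp]
      have h3 : (P - X ^ (2 * m)).degree < P.degree := by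
        apply degree_sub_lt
        · rw [degree_eq_natDegree hP.ne_zero, hm, degree_X_pow, two_mul]
        · exact hP.ne_zero
        · rw [hP.leadingCoeff, leadingCoeff_X_pow]
      have h4 := natDegree_lt_natDegree h0 h3
      rw [hm] at h4
      have h5 : (P - X ^ (2 * m)).natDegree < 2 * m := by omega
      exact_mod_cast h5
  refine h1.trans ?_
  have hX1 : algebraMap K (CompInf k K) (algebraMap k[X] K X) ≠ 0 := by
    have : algebraMap k[X] K X ≠ 0 := by simp
    exact (_root_.map_ne_zero _).2 this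
  rw [map_pow, map_pow]
  exact sqEq_two hX1 m

end

section
variable {k K : Type} [Field k] [Fintype k] [DecidableEq k] [Field K] [Algebra k[X] K]
  [IsFractionRing k[X] K] {κ : Type} [Fintype κ] {R : κ → k[X]}

theorem el'_mul (x0 : κ) (r r' : k) (n n' : κ → ℕ) :
    el' R x0 r n * el' R x0 r' n' = el' R x0 (r * r') (n + n') := by
  simp only [el', Pi.add_apply, pow_add, prod_mul_distrib, C_mul]
  ring

theorem F2_mod {m n : ℕ} (h : (m : F2) = (n : F2)) : m % 2 = n % 2 :=
  (ZMod.natCast_eq_natCast_iff m n 2).1 h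

/-- local comparison -/
theorem loc_el' (hk : ringChar k ≠ 2) (hR : Fam R) (x0 : κ) {r r' : k} (hr : r ≠ 0) (hr' : r' ≠ 0)
    (n n' : κ → ℕ) (h1 : (n x0 : F2) = n' x0) (h2 : Lm R r n (R x0) = Lm R r' n' (R x0)) :
    SqEq (algebraMap K (Comp k[X] K (plK (hR.irr x0))) (algebraMap k[X] K (el R r n)))
      (algebraMap K (Comp k[X] K (plK (hR.irr x0))) (algebraMap k[X] K (el R r' n'))) := by
  have h2k : (2 : k) ≠ 0 := Ring.two_ne_zero hk
  have hrr : r * r' ≠ 0 := mul_ne_zero hr hr'
  have h3 : L (el' R x0 (r * r') (n + n')) (R x0) = 0 := by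
    rw [L_el' hR x0 hrr, Lm_mul hr hr', h2, F2_add_self]
  obtain ⟨z, hz⟩ := (L_eq_zero_iff hk (hR.mon x0) (hR.irr x0) (el'_not_dvd hR x0 hrr _)).1 h3
  rw [← el'_mul] at hz
  have h4 := sqEq_loc (K := K) h2k (plK (hR.irr x0)) (fun p => mem_plK (hR.irr x0))
    (el'_not_dvd hR x0 hr n) (el'_not_dvd hR x0 hr' n') hz
  have h5 : algebraMap K (Comp k[X] K (plK (hR.irr x0))) (algebraMap k[X] K (R x0)) ≠ 0 := by
    simpa using (hR.irr x0).ne_zero
  rw [el_eq x0, el_eq x0 r' n', map_mul, map_mul, map_mul, map_mul, map_pow, map_pow, map_pow,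
    map_pow]
  exact (sqEq_pow h5 (F2_mod h1)).mul h4

/-- the exponents and the constant are determined by the class -/
theorem el_inj (hk : ringChar k ≠ 2) (hR : Fam R) {r r' : k} (hr : r ≠ 0) (hr' : r' ≠ 0)
    (n n' : κ → ℕ)
    (h : SqEq (algebraMap k[X] K (el R r n)) (algebraMap k[X] K (el R r' n'))) :
    (∀ x, (n x : F2) = n' x) ∧ ch r = ch r' := by
  have h1 : ∀ x, (n x : F2) = n' x := by
    intro x
    refine (loc_el (K := K) hk hR x hr hr' n n' ?_).1
    obtain ⟨c, hc, e⟩ := h
    exact ⟨algebraMap K _ c, (_root_.map_ne_zero _).2 hc, by rw [e, map_mul, map_pow]⟩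
  refine ⟨h1, ?_⟩
  have hrr : r * r' ≠ 0 := mul_ne_zero hr hr'
  -- the product is a constant times a square
  have h2 : ∀ x, ∃ m, n x + n' x = m + m := by
    intro x
    have : Even (n x + n' x) := by
      rw [← cast_eq_zero_iff_even, Nat.cast_add, h1 x, F2_add_self]
    exact this
  choose m hm using h2
  have h3 : el R r n * el R r' n' = C (r * r') * (el R 1 m) ^ 2 := by
    rw [el_mul, pow_two, el_mul, mul_one]
    have : (fun x => (n + n') x) = fun x => (m + m) x := funext hm
    rw [show n + n' = m + m from this, el, el, C_1, one_mul]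
  obtain ⟨c, hc, e⟩ := h
  have h4 : IsSquare (algebraMap k[X] K (C (r * r'))) := by
    have hm0 : algebraMap k[X] K (el R 1 m) ≠ 0 := by simpa using el_ne hR one_ne_zero m
    refine ⟨c * algebraMap k[X] K (el R r' n') / algebraMap k[X] K (el R 1 m), ?_⟩
    have h5 := congrArg (algebraMap k[X] K) h3
    rw [map_mul, map_mul, map_pow, e] at h5
    field_simp
    linear_combination -h5
  have h5 : IsSquare (r * r') := by
    have h6 : IsSquare (algebraMap K (CompInf k K) (algebraMap k[X] K (C (r * r')))) := by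
      obtain ⟨y, hy⟩ := h4
      exact ⟨algebraMap K _ y, by rw [hy, map_mul]⟩
    have h7 := (sq_inf (C_ne_zero.2 hrr) h6).2
    rwa [leadingCoeff_C] at h7
  rw [← ch_eq_zero_iff hrr, ch_mul hr hr'] at h5
  exact F2_eq_of_add h5

end

end Pool.Agent.V8H26.XA
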