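import Pool.Agent.V8H26.XA.Loc

/-!
# The classes of the points of order two at the bad primes, and the equations of the kernel
-/

set_option autoImplicit false
set_option linter.all false

open Polynomial IsDedekindDomain WeierstrassCurve WeierstrassCurve.Affine
open scoped Classical

namespace Pool.Agent.V8H26.XA

open Pool.Agent.TH115.GD Pool.Agent.H341R2.Sharp Finset Pool.Agent.Y164.PS

section abs
variable {ι τ : Type} [Fintype ι] [Fintype τ] (D : Dat τ) {A : ι → ι → ZMod 2} {B : ι → τ → ZMod 2}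
  {d : ι → ZMod 2}

/-- the form in terms of the equations -/
theorem FF_E (w : V ι τ) (x0 : W) (w' : V ι τ) :
    Pool.Agent.Y164.PS.FF D A B d w w' + om x0 (dg D d w') =
      ∑ i, om (E1 (A := A) D B d w x0 i) (w'.1 i) + ∑ s, E2 (ι := ι) D B w x0 s * w'.2 s := by
  have a1 : ∀ i, om (E1 (A := A) D B d w x0 i) (w'.1 i) =
      ∑ j, A i j * (om (w.1 j) (w'.1 i) + om (w.1 i) (w'.1 i)) +
      ∑ s, B i s * (om (w.1 i) (D.t s) * om (D.t s) (w'.1 i) + w.2 s * om (D.t s) (w'.1 i)) +
      (d i * om (ks D.l (w.1 i)) (w'.1 i) + d i * om x0 (w'.1 i)) := by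
    intro i
    simp only [E1, om_add_left, om_sum_left, om_smul_left]
    rw [mul_add (d i)]
  have a2 : ∀ s, E2 (ι := ι) D B w x0 s * w'.2 s = w.2 s * w'.2 s +
      ∑ i, B i s * (w'.2 s * om (w.1 i) (D.t s)) +
      ∑ s', D.G s s' * (w.2 s' * w'.2 s * om (D.t s') (D.t s)) +
      D.e s * w'.2 s * om x0 (D.t s) := by
    intro s
    simp only [E2, add_mul, sum_mul]
    congr 1
    · congr 1
      · congr 1
        refine sum_congr rfl fun i _ => ?_
        ring
      · refine sum_congr rfl fun i _ => ?_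
        ring
    · ring
  have a3 : om x0 (dg D d w') = ∑ i, d i * om x0 (w'.1 i) + ∑ s, D.e s * w'.2 s * om x0 (D.t s) := by
    simp only [dg, om_add_right, om_sum_right, om_smul_right]
  have a4 : ∑ i, ∑ s, B i s * (om (w.1 i) (D.t s) * om (w'.1 i) (D.t s) +
      w.2 s * om (D.t s) (w'.1 i) + w'.2 s * om (w.1 i) (D.t s)) =
      ∑ i, ∑ s, B i s * (om (w.1 i) (D.t s) * om (D.t s) (w'.1 i) + w.2 s * om (D.t s) (w'.1 i)) +
      ∑ s, ∑ i, B i s * (w'.2 s * om (w.1 i) (D.t s)) := by
    rw [sum_comm (s := (univ : Finset τ)) (t := (univ : Finset ι)), ← sum_add_distrib]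
    refine sum_congr rfl fun i _ => ?_
    rw [← sum_add_distrib]
    refine sum_congr rfl fun s _ => ?_
    rw [om_comm (w'.1 i) (D.t s)]; ring
  rw [a3]
  simp only [a1, a2, sum_add_distrib]
  rw [Pool.Agent.Y164.PS.FF, a4]
  ring

/-- the kernel on the vectors of degree zero is the kernel -/
theorem ker_all (hA : ∀ i j, A i j = A j i) (hcl : ∀ s, 1 + ∑ i, B i s + D.g s = 0)
    (hN : ∑ i, d i + D.N = 1) {w : V ι τ} (hw : dg D d w = 0)
    (h : ∀ w', dg D d w' = 0 → Pool.Agent.Y164.PS.FF D A B d w w' = 0) (w' : V ι τ) :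
    Pool.Agent.Y164.PS.FF D A B d w w' = 0 := by
  have hdT : ∀ y : W, dg D d (TT D y) = y := fun y => by rw [dg_TT, hN, one_smul]
  have h1 : Pool.Agent.Y164.PS.FF D A B d w (TT D (dg D d w')) = 0 := by
    rw [FF_comm D B d hA, FF_eq D B d _ (ks D.l (dg D d w')) (fun i => E1_TT D B d _ i)
      (fun s => E2_TT D B hcl _ s), hw, om_zero_right]
  have h2 : Pool.Agent.Y164.PS.FF D A B d w (w' + TT D (dg D d w')) = 0 := by
    apply h
    rw [dg_add, hdT, W_add_self]
  rw [FF_add_right D B d hA, h1, add_zero] at h2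
  exact h2

theorem om_pi (i : ι) (f : ι → W) (z : W) : ∑ j, om (f j) ((Pi.single i z : ι → W) j) = om (f i) z := by
  rw [sum_eq_single i]
  · rw [Pi.single_eq_same]
  · intro j _ hj
    rw [Pi.single_eq_of_ne hj, om_zero_right]
  · intro h
    exact absurd (mem_univ _) h

/-- the equations of the kernel -/
theorem ker_E {w : V ι τ}
    (hw : ∀ w', Pool.Agent.Y164.PS.FF D A B d w w' = 0) :
    (∀ i, E1 (A := A) D B d w 0 i = 0) ∧ ∀ s, E2 (ι := ι) D B w 0 s = 0 := by
  have key : ∀ w' : V ι τ, ∑ i, om (E1 (A := A) D B d w 0 i) (w'.1 i) +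
      ∑ s, E2 (ι := ι) D B w 0 s * w'.2 s = 0 := by
    intro w'
    rw [← FF_E D w 0 w', hw, om_zero_left, add_zero]
  constructor
  · intro i
    apply eq_zero_of_om
    intro z
    have h1 := key (Pi.single i z, 0)
    have h2 : ∑ s, E2 (ι := ι) D B w 0 s * (0 : τ → ZMod 2) s = 0 := by simp
    have h3 : ∑ j, om (E1 (A := A) D B d w 0 j) ((Pi.single i z : ι → W) j) +
      ∑ s, E2 (ι := ι) D B w 0 s * (0 : τ → ZMod 2) s = 0 := h1
    rw [h2, add_zero, om_pi] at h3
    exact h3
  · intro s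
    have h1 := key (0, Pi.single s 1)
    have h2 : ∑ i, om (E1 (A := A) D B d w 0 i) ((0 : ι → W) i) = 0 :=
      sum_eq_zero fun i _ => om_zero_right _
    have h3 : ∑ i, om (E1 (A := A) D B d w 0 i) ((0 : ι → W) i) +
      ∑ s', E2 (ι := ι) D B w 0 s' * (Pi.single s 1 : τ → ZMod 2) s' = 0 := h1
    rw [h2, zero_add, sum_eq_single s] at h3
    · rw [Pi.single_eq_same, mul_one] at h3
      exact h3
    · intro j _ hj
      rw [Pi.single_eq_of_ne hj, mul_zero]
    · intro h
      exact absurd (mem_univ _) h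

end abs

section
variable {k : Type} [Field k] [Fintype k] [DecidableEq k]
variable {a b : k[X]} {N : ℕ} (H : Hyp a b N)
variable {ι : Type} [Fintype ι] {P : ι → k[X]}

/-- the classes of the points of order two -/
noncomputable def TL (a b : k[X]) (P : ι → k[X]) (y : W) (Q : k[X]) : W :=
  LW (RR a b P) (rp0 a b y) (rp1 a b y) (np0 ι a b y) (np1 ι a b y) Q

include H in
theorem TL_eq (y : W) (Q : k[X]) : TL a b P y Q =
    ∑ j, L (P j) Q • y + ∑ s, L (QQ a b s) Q • (om y (tv a b s) • tv a b s) +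
      (Q.natDegree : F2) • ks (datum H).l y := by
  rw [TL, LW_eq, rp_ch H]
  simp only [np_inl, np_inr H]

include H in
theorem TL_add (y y' : W) (Q : k[X]) : TL a b P (y + y') Q = TL a b P y Q + TL a b P y' Q := by
  rw [TL_eq H, TL_eq H, TL_eq H]
  simp only [smul_add, sum_add_distrib, om_add_left, add_smul, ks_add]
  abel

include H in
theorem L_types (s : Tau a b) : (QQ a b s ∣ a → L (a - b) (QQ a b s) = L b (QQ a b s)) ∧
    (QQ a b s ∣ b → L (a - b) (QQ a b s) = L a (QQ a b s)) ∧
    (QQ a b s ∣ a - b → L b (QQ a b s) = L a (QQ a b s)) := by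
  have hirr := (H.fam).irr s
  have hmon := (H.fam).mon s
  refine ⟨fun h => ?_, fun h => ?_, fun h => ?_⟩
  · rw [← L_neg_left H.hk H.hm hmon hirr]
    apply L_congr H.hk hmon hirr
    have : -(a - b) - b = -a := by ring
    rw [this]
    exact (dvd_neg).2 h
  · apply L_congr H.hk hmon hirr
    have : a - b - a = -b := by ring
    rw [this]
    exact (dvd_neg).2 h
  · apply L_congr H.hk hmon hirr
    have : b - a = -(a - b) := by ring
    rw [this]
    exact (dvd_neg).2 h

include H in
/-- the points of order two are locally independent at the bad primes -/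
theorem TL_ne (hcl : cl (datum H) (QQ a b) P) (s : Tau a b) {y : W} (hy : y ≠ 0) :
    TL a b P y (QQ a b s) ≠ 0 := by
  obtain ⟨da, db, dc⟩ := dvd3 H
  have hcne : a - b ≠ 0 := sub_ne_zero.2 H.hab
  have la : a.leadingCoeff ≠ 0 := leadingCoeff_ne_zero.2 H.ha
  have lb : b.leadingCoeff ≠ 0 := leadingCoeff_ne_zero.2 H.hb
  have lc : (a - b).leadingCoeff ≠ 0 := leadingCoeff_ne_zero.2 hcne
  obtain ⟨l1, l2, l3⟩ := L_types H s
  have hcs := hcl s
  set x := Lm (RR a b P) a.leadingCoeff (nn ι a b a) (QQ a b s) with hx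
  set z := Lm (RR a b P) b.leadingCoeff (nn ι a b b) (QQ a b s) with hz
  set u := Lm (RR a b P) (a - b).leadingCoeff (nn ι a b (a - b)) (QQ a b s) with hu
  have F2l : ∀ x y : F2, 1 + x + y = 0 → x + y = 1 := by decide
  -- at most one of the three symbols is trivial
  have key : ¬ (x = 0 ∧ z = 0) ∧ ¬ (x = 0 ∧ u = 0) ∧ ¬ (z = 0 ∧ u = 0) := by
    rcases tri H s with ⟨h1, h2, h3⟩ | ⟨h1, h2, h3⟩ | ⟨h1, h2, h3⟩
    · have hg : (datum H).g s = L b (QQ a b s) := if_pos h1
      rw [hg] at hcs
      have ez : z = 1 := by rw [hz, Lm_tw H H.hb db s h2]; exact F2l _ _ hcs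
      have eu : u = 1 := by rw [hu, Lm_tw H hcne dc s h3, l1 h1]; exact F2l _ _ hcs
      rw [ez, eu]
      simp
    · have hg : (datum H).g s = L a (QQ a b s) := if_neg h1
      rw [hg] at hcs
      have ex : x = 1 := by rw [hx, Lm_tw H H.ha da s h1]; exact F2l _ _ hcs
      have eu : u = 1 := by rw [hu, Lm_tw H hcne dc s h3, l2 h2]; exact F2l _ _ hcs
      rw [ex, eu]
      simp
    · have hg : (datum H).g s = L a (QQ a b s) := if_neg h1
      rw [hg] at hcs
      have ex : x = 1 := by rw [hx, Lm_tw H H.ha da s h1]; exact F2l _ _ hcs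
      have ez : z = 1 := by rw [hz, Lm_tw H H.hb db s h2, l3 h3]; exact F2l _ _ hcs
      rw [ex, ez]
      simp
  have add0 : ∀ x y : F2, x + y = 0 → y = 0 → x = 0 := by decide
  intro h
  have h0 := congrArg Prod.fst h
  have h1 := congrArg Prod.snd h
  simp only [TL, LW] at h0 h1
  rcases W_cases y with rfl | rfl | rfl | rfl
  · exact hy rfl
  · have e0 : Lm (RR a b P) (a.leadingCoeff * b.leadingCoeff) (nn ι a b a + nn ι a b b) (QQ a b s) =
        0 := by
      simp only [rp0, np0, if_true, one_ne_zero, if_false] at h0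
      exact h0
    have e1 : Lm (RR a b P) (-1 * a.leadingCoeff) (nn ι a b a) (QQ a b s) = 0 := by
      simp only [rp1, np1, if_true, one_ne_zero, if_false] at h1
      exact h1
    rw [Lm_mul la lb] at e0
    rw [Lm_neg H la] at e1
    apply key.1
    refine ⟨e1, ?_⟩
    rw [add_comm] at e0
    exact add0 _ _ e0 e1
  · have e0 : Lm (RR a b P) a.leadingCoeff (nn ι a b a) (QQ a b s) = 0 := by
      simp only [rp0, np0, if_true, one_ne_zero, if_false] at h0
      exact h0
    have e1 : Lm (RR a b P) (a.leadingCoeff * (a - b).leadingCoeff)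
        (nn ι a b a + nn ι a b (a - b)) (QQ a b s) = 0 := by
      simp only [rp1, np1, if_true, one_ne_zero, if_false] at h1
      exact h1
    rw [Lm_mul la lc] at e1
    apply key.2.1
    refine ⟨e0, ?_⟩
    rw [add_comm] at e1
    exact add0 _ _ e1 e0
  · have e0 : Lm (RR a b P) b.leadingCoeff (nn ι a b b) (QQ a b s) = 0 := by
      simp only [rp0, np0, if_true, one_ne_zero, if_false] at h0
      exact h0
    have e1 : Lm (RR a b P) (-1 * (a - b).leadingCoeff) (nn ι a b (a - b)) (QQ a b s) = 0 := by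
      simp only [rp1, np1, if_true, one_ne_zero, if_false] at h1
      exact h1
    rw [Lm_neg H lc] at e1
    exact key.2.2 ⟨e0, e1⟩

include H in
theorem TL_surj (hcl : cl (datum H) (QQ a b) P) (s : Tau a b) (l : W) :
    ∃ y : W, TL a b P y (QQ a b s) = l := by
  have hinj : Function.Injective fun y : W => TL a b P y (QQ a b s) := by
    intro y y' h
    by_contra hne
    have h1 : y + y' ≠ 0 := by
      intro h0
      apply hne
      calc y = y + (y' + y') := by rw [W_add_self, add_zero]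
        _ = y' := by rw [← add_assoc, h0, zero_add]
    apply TL_ne H hcl s h1
    rw [TL_add H]
    have h2 : TL a b P y (QQ a b s) = TL a b P y' (QQ a b s) := h
    rw [h2]
    exact W_add_self _
  exact (Finite.injective_iff_surjective.1 hinj) l

include H in
theorem TL_om (hcl : cl (datum H) (QQ a b) P) (s : Tau a b) (y : W) :
    om (TL a b P y (QQ a b s)) (tv a b s) = om y (tv a b s) := by
  have h1 := E2_TT (ι := ι) (datum H) (BT (QQ a b) P) hcl y s
  rw [TL_eq H]
  simp only [om_add_left, om_sum_left, om_smul_left]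
  have h2 : E2 (ι := ι) (datum H) (BT (QQ a b) P) (TT (datum H) y) (ks (datum H).l y) s =
      om y (tv a b s) + ∑ i, L (P i) (QQ a b s) * om y (tv a b s) +
      ∑ s', L (QQ a b s') (QQ a b s) * (om y (tv a b s') * om (tv a b s') (tv a b s)) +
      ((QQ a b s).natDegree : F2) * om (ks (datum H).l y) (tv a b s) := by
    have a1 : ∀ s', (datum H).G s s' = L (QQ a b s') (QQ a b s) := fun s' => L_comm H.hm _ _
    simp only [E2, TT, a1]
    rfl
  rw [h2] at h1
  have key : ∀ p q r t : F2, p + q + r + t = 0 → q + r + t = p := by decide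
  exact key _ _ _ _ h1

end

end Pool.Agent.V8H26.XA
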