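import Pool.Agent.V8H26.XA.Gd
import Pool.Agent.V8H26.XA.Tor

/-!
# The elements of the kernel are everywhere locally soluble
-/

set_option autoImplicit false
set_option linter.all false

open Polynomial IsDedekindDomain WeierstrassCurve WeierstrassCurve.Affine
open scoped Classical

namespace Pool.Agent.V8H26.XA

open Pool.Agent.TH115.GD Pool.Agent.H341R2.Sharp Finset Pool.Agent.Y164.PS

theorem locSol_pt2 {K L : Type} [Field K] [Field L] (i1 i2 : Algebra K L) {α β a0 a1 : K}
    (h : ∀ x, @algebraMap K L _ _ i1 x = @algebraMap K L _ _ i2 x) (T : Pt (crv α β) K)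
    (s0 : SqEq (@algebraMap K L _ _ i2 a0) (@algebraMap K L _ _ i2 (d0 α β T)))
    (s1 : SqEq (@algebraMap K L _ _ i2 a1) (@algebraMap K L _ _ i2 (d1 α β T))) :
    @LocSol K K _ _ (crv α β) α β L _ i1 i2 a0 a1 := by
  obtain ⟨Q', j0, j1⟩ := @pt_incl K _ α β T L _ i1
  obtain ⟨c0, n0, e0⟩ := s0
  obtain ⟨c1, n1, e1⟩ := s1
  refine ⟨Q', c0, c1, n0, n1, ?_, ?_⟩
  · rw [e0, j0, h]
  · rw [e1, j1, h]

theorem locSol_xy {K L : Type} [Field K] [Field L] (i1 i2 : Algebra K L) {α β a0 a1 : K}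
    (h : ∀ x, @algebraMap K L _ _ i1 x = @algebraMap K L _ _ i2 x)
    (h2 : (2 : K) ≠ 0) (hα : α ≠ 0) (hβ : β ≠ 0) (hαβ : α ≠ β) {x y : L}
    (e : y ^ 2 = x * (x - @algebraMap K L _ _ i2 α) * (x - @algebraMap K L _ _ i2 β))
    (x0 : x ≠ 0) (xa : x ≠ @algebraMap K L _ _ i2 α)
    (s0 : SqEq (@algebraMap K L _ _ i2 a0) x)
    (s1 : SqEq (@algebraMap K L _ _ i2 a1) (x - @algebraMap K L _ _ i2 α)) :
    @LocSol K K _ _ (crv α β) α β L _ i1 i2 a0 a1 := by
  have hE := @isE K _ α β L _ i1 h2 hα hβ hαβ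
  rw [← h α, ← h β] at e
  rw [← h α] at xa s1
  have hxy := hE.nonsingular.2 e
  obtain ⟨c0, n0, e0⟩ := s0
  obtain ⟨c1, n1, e1⟩ := s1
  refine ⟨.some x y hxy, c0, c1, n0, n1, ?_, ?_⟩
  · rw [e0, d0, if_neg x0]
  · rw [e1, d1, if_neg xa]

section
variable {k K : Type} [Field k] [Fintype k] [DecidableEq k] [Field K] [Algebra k[X] K]
  [IsFractionRing k[X] K]
variable {a b : k[X]} {N : ℕ} (H : Hyp a b N)
variable {ι : Type} [Fintype ι] {P : ι → k[X]} (hR : Fam (RR a b P))

/-- the exponents of a vector -/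
noncomputable def nw0 (a b : k[X]) (w : V ι (Tau a b)) : ι ⊕ Tau a b → ℕ :=
  Sum.elim (fun i => (w.1 i).1.val) (fun s => (w.2 s * (tv a b s).1).val)

/-- the exponents of a vector -/
noncomputable def nw1 (a b : k[X]) (w : V ι (Tau a b)) : ι ⊕ Tau a b → ℕ :=
  Sum.elim (fun i => (w.1 i).2.val) (fun s => (w.2 s * (tv a b s).2).val)

theorem nw_inl (w : V ι (Tau a b)) (i : ι) :
    (((nw0 a b w (Sum.inl i) : F2), (nw1 a b w (Sum.inl i) : F2)) : W) = w.1 i := by
  simp only [nw0, nw1, Sum.elim_inl, ZMod.natCast_zmod_val]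

theorem nw_inr (w : V ι (Tau a b)) (s : Tau a b) :
    (((nw0 a b w (Sum.inr s) : F2), (nw1 a b w (Sum.inr s) : F2)) : W) = w.2 s • tv a b s := by
  simp only [nw0, nw1, Sum.elim_inr, ZMod.natCast_zmod_val]
  rfl

/-- the symbols of a vector -/
noncomputable def VL (a b : k[X]) (P : ι → k[X]) (w : V ι (Tau a b)) (Q : k[X]) : W :=
  LW (RR a b P) 1 1 (nw0 a b w) (nw1 a b w) Q

theorem VL_eq (w : V ι (Tau a b)) (Q : k[X]) : VL a b P w Q =
    ∑ j, L (P j) Q • w.1 j + ∑ s, L (QQ a b s) Q • (w.2 s • tv a b s) := by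
  have c1 : ch (1 : k) = 0 := (ch_eq_zero_iff one_ne_zero).2 ⟨1, (mul_one 1).symm⟩
  rw [VL, LW_eq, c1]
  simp only [nw_inl, nw_inr]
  have h0 : ((0, 0) : W) = 0 := rfl
  rw [h0, smul_zero, add_zero]

include H hR in
/-- the points of order two -/
theorem tor_T (y : W) : ∃ T : Pt (crv (al K a P) (al K b P)) K, T + T = 0 ∧
    d0 (al K a P) (al K b P) T = algebraMap k[X] K (el (RR a b P) (rp0 a b y) (np0 ι a b y)) ∧
    d1 (al K a P) (al K b P) T = algebraMap k[X] K (el (RR a b P) (rp1 a b y) (np1 ι a b y)) := by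
  have h2 := two_ne H
  obtain ⟨t1, t2, t3⟩ := tw_ne H hR
  have inj := IsFractionRing.injective k[X] K
  have h2K : (2 : K) ≠ 0 := tt h2
  have haK : al K a P ≠ 0 := by
    rw [al, Ne, IsFractionRing.to_map_eq_zero_iff]; exact t1
  have hbK : al K b P ≠ 0 := by
    rw [al, Ne, IsFractionRing.to_map_eq_zero_iff]; exact t2
  have habK : al K a P ≠ al K b P := fun h => t3 (inj h)
  obtain ⟨⟨T1, o1, o2, o3⟩, ⟨T2, o4, o5, o6⟩⟩ := tor_pt h2K haK hbK habK
  obtain ⟨T3, o7, o8, o9⟩ := tor_pt3 h2K haK hbK habK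
  have hsub : algebraMap k[X] K ((a - b) * ∏ i, P i) = al K a P - al K b P := by
    rw [sub_mul, map_sub]
  rcases W_cases y with rfl | rfl | rfl | rfl
  · refine ⟨0, add_zero 0, ?_, ?_⟩
    · rw [((tor_el (P := P) H (0, 0)).1 rfl).1, map_one]
      rfl
    · rw [((tor_el (P := P) H (0, 0)).1 rfl).2, map_one]
      rfl
  · refine ⟨T1, o1, ?_, ?_⟩
    · rw [((tor_el (P := P) H (0, 1)).2.1 rfl).1, map_mul, o2]
    · rw [((tor_el (P := P) H (0, 1)).2.1 rfl).2, map_neg, o3]
  · refine ⟨T2, o4, ?_, ?_⟩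
    · rw [((tor_el (P := P) H (1, 0)).2.2.1 rfl).1, o5]
    · rw [((tor_el (P := P) H (1, 0)).2.2.1 rfl).2, map_mul, hsub, o6]
  · refine ⟨T3, o7, ?_, ?_⟩
    · rw [((tor_el (P := P) H (1, 1)).2.2.2 rfl).1, o8]
    · rw [((tor_el (P := P) H (1, 1)).2.2.2 rfl).2, map_neg, hsub, neg_sub, o9]

theorem pl_eq {π : k[X]} (hπ : Irreducible π) {v : HeightOneSpectrum k[X]} (h : π ∈ v.asIdeal) :
    v = plK hπ := by
  apply HeightOneSpectrum.ext
  show v.asIdeal = Ideal.span {π}
  have h1 : Ideal.span {π} ≤ v.asIdeal := by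
    rw [Ideal.span_singleton_le_iff_mem]
    exact h
  have h2 : (Ideal.span {π} : Ideal k[X]).IsMaximal := PrincipalIdealRing.isMaximal_of_irreducible hπ
  exact (h2.eq_of_le v.isPrime.ne_top h1).symm

theorem F2_eq_of_W {x y : W} (h : x + y = 0) : x = y := by
  revert x y; decide

theorem not_dvd_el {κ : Type} [Fintype κ] {R : κ → k[X]} {π : k[X]} (hπ : Irreducible π)
    (h : ∀ x, ¬ π ∣ R x) (n : κ → ℕ) : ¬ π ∣ el R 1 n := by
  rw [el, C_1, one_mul, hπ.prime.dvd_finset_prod_iff]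
  rintro ⟨x, -, hx⟩
  exact h x (hπ.prime.dvd_of_dvd_pow hx)

theorem monic_el {κ : Type} [Fintype κ] {R : κ → k[X]} (hm : ∀ x, (R x).Monic) (n : κ → ℕ) :
    (el R 1 n).Monic := by
  rw [el, C_1, one_mul]
  exact monic_prod_of_monic _ _ fun x _ => (hm x).pow _

theorem deg_el {κ : Type} [Fintype κ] {R : κ → k[X]} (hm : ∀ x, (R x).Monic) (n : κ → ℕ) :
    ((el R 1 n).natDegree : F2) = ∑ x, (n x : F2) * ((R x).natDegree : F2) := by
  rw [el, C_1, one_mul, natDegree_prod_of_monic _ _ fun x _ => (hm x).pow _]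
  push_cast
  refine sum_congr rfl fun x _ => ?_
  rw [(hm x).natDegree_pow]
  push_cast
  rfl

include hR in
theorem deg_w (w : V ι (Tau a b)) :
    ((((el (RR a b P) 1 (nw0 a b w)).natDegree : F2),
      ((el (RR a b P) 1 (nw1 a b w)).natDegree : F2)) : W) =
      dg (datum H) (fun i => ((P i).natDegree : F2)) w := by
  have e1 : ∀ n : ι ⊕ Tau a b → ℕ, ((el (RR a b P) 1 n).natDegree : F2) =
      ∑ i, (n (Sum.inl i) : F2) * ((P i).natDegree : F2) +
      ∑ s, (n (Sum.inr s) : F2) * ((QQ a b s).natDegree : F2) := by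
    intro n
    rw [deg_el hR.mon, Fintype.sum_sum_type]
    rfl
  have e2 : dg (datum H) (fun i => ((P i).natDegree : F2)) w =
      ∑ i, ((P i).natDegree : F2) • (((nw0 a b w (Sum.inl i) : F2),
        (nw1 a b w (Sum.inl i) : F2)) : W) +
      ∑ s, ((QQ a b s).natDegree : F2) • (((nw0 a b w (Sum.inr s) : F2),
        (nw1 a b w (Sum.inr s) : F2)) : W) := by
    simp only [nw_inl, nw_inr]
    rw [dg]
    congr 1
    refine sum_congr rfl fun s _ => ?_
    rw [smul_smul]
    rfl
  rw [e1, e1, e2]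
  apply Prod.ext
  · show ∑ i, (nw0 a b w (Sum.inl i) : F2) * ((P i).natDegree : F2) +
      ∑ s, (nw0 a b w (Sum.inr s) : F2) * ((QQ a b s).natDegree : F2) = _
    rw [Prod.fst_add, Prod.fst_sum, Prod.fst_sum]
    refine congrArg₂ (· + ·) ?_ ?_
    · exact sum_congr rfl fun i _ => mul_comm _ _
    · exact sum_congr rfl fun i _ => mul_comm _ _
  · show ∑ i, (nw1 a b w (Sum.inl i) : F2) * ((P i).natDegree : F2) +
      ∑ s, (nw1 a b w (Sum.inr s) : F2) * ((QQ a b s).natDegree : F2) = _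
    rw [Prod.snd_add, Prod.snd_sum, Prod.snd_sum]
    refine congrArg₂ (· + ·) ?_ ?_
    · exact sum_congr rfl fun i _ => mul_comm _ _
    · exact sum_congr rfl fun i _ => mul_comm _ _

include H hR in
/-- **the elements of the kernel are everywhere locally soluble** -/
theorem ls_ker (hcl : cl (datum H) (QQ a b) P) {w : V ι (Tau a b)}
    (hw : dg (datum H) (fun i => ((P i).natDegree : F2)) w = 0)
    (h1 : ∀ i, E1 (A := AT P) (datum H) (BT (QQ a b) P) (fun i => ((P i).natDegree : F2)) w 0 i = 0)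
    (h2' : ∀ s, E2 (ι := ι) (datum H) (BT (QQ a b) P) w 0 s = 0) :
    LSg (F := K) k (crv (al K a P) (al K b P)) (al K a P) (al K b P)
      (algebraMap k[X] K (el (RR a b P) 1 (nw0 a b w)))
      (algebraMap k[X] K (el (RR a b P) 1 (nw1 a b w))) := by
  have h2 := two_ne H
  obtain ⟨t1, t2, t3⟩ := tw_ne H hR
  have inj := IsFractionRing.injective k[X] K
  have h2K : (2 : K) ≠ 0 := tt h2
  have haK : al K a P ≠ 0 := by
    rw [al, Ne, IsFractionRing.to_map_eq_zero_iff]; exact t1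
  have hbK : al K b P ≠ 0 := by
    rw [al, Ne, IsFractionRing.to_map_eq_zero_iff]; exact t2
  have habK : al K a P ≠ al K b P := fun h => t3 (inj h)
  -- the places of the family
  have fam : ∀ (x : ι ⊕ Tau a b) (y : W),
      (((nw0 a b w x : F2), (nw1 a b w x : F2)) : W) =
        ((np0 ι a b y x : F2), (np1 ι a b y x : F2)) →
      VL a b P w (RR a b P x) = TL a b P y (RR a b P x) →
      LocSol (F := K) (crv (al K a P) (al K b P)) (al K a P) (al K b P)
        (Comp k[X] K (plK (hR.irr x)))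
        (algebraMap k[X] K (el (RR a b P) 1 (nw0 a b w)))
        (algebraMap k[X] K (el (RR a b P) 1 (nw1 a b w))) := by
    intro x y hy hL
    obtain ⟨T, -, e0, e1⟩ := tor_T (K := K) H hR y
    refine locSol_pt2 (compAlgebra' k[X] K (plK (hR.irr x)) K) (compAlgebra k[X] K (plK (hR.irr x)))
      (fun x => rfl) T ?_ ?_
    · rw [e0]
      exact loc_el' H.hk hR x one_ne_zero (rp_ne H y).1 _ _ (congrArg Prod.fst hy)
        (congrArg Prod.fst hL)
    · rw [e1]
      exact loc_el' H.hk hR x one_ne_zero (rp_ne H y).2 _ _ (congrArg Prod.snd hy)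
        (congrArg Prod.snd hL)
  constructor
  · intro v
    by_cases hv : ∃ x, RR a b P x ∈ v.asIdeal
    · obtain ⟨x, hx⟩ := hv
      have hvx := pl_eq (hR.irr x) hx
      subst hvx
      rcases x with i | s
      · refine fam (Sum.inl i) (w.1 i) ?_ ?_
        · rw [nw_inl, np_inl]
        · apply F2_eq_of_W
          rw [VL_eq, TL_eq H]
          have h3 := h1 i
          have a1 : ∀ j, AT P i j = L (P j) (P i) := fun j => by rw [AT, L_comm H.hm]
          have a2 : ∀ s, BT (QQ a b) P i s = L (QQ a b s) (P i) := fun s => by rw [BT, L_comm H.hm]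
          have h4 : E1 (A := AT P) (datum H) (BT (QQ a b) P) (fun i => ((P i).natDegree : F2)) w 0 i =
              ∑ j, L (P j) (P i) • w.1 j + ∑ s, L (QQ a b s) (P i) • (w.2 s • tv a b s) +
              (∑ j, L (P j) (P i) • w.1 i +
              ∑ s, L (QQ a b s) (P i) • (om (w.1 i) (tv a b s) • tv a b s) +
              ((P i).natDegree : F2) • ks (datum H).l (w.1 i)) := by
            simp only [E1, a1, a2, smul_add, sum_add_distrib, add_zero]
            have hts : ∀ s, (datum H).t s = tv a b s := fun _ => rfl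
            simp only [hts]
            abel
          rw [h4] at h3
          exact h3
      · obtain ⟨y, hy⟩ := TL_surj H hcl s (VL a b P w (QQ a b s))
        refine fam (Sum.inr s) y ?_ hy.symm
        rw [nw_inr, np_inr H]
        congr 1
        rw [← TL_om H hcl s y, hy, VL_eq]
        simp only [om_add_left, om_sum_left, om_smul_left]
        have h3 := h2' s
        have a1 : ∀ s', (datum H).G s s' = L (QQ a b s') (QQ a b s) := fun s' => L_comm H.hm _ _
        have h4 : E2 (ι := ι) (datum H) (BT (QQ a b) P) w 0 s =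
            w.2 s + ∑ i, L (P i) (QQ a b s) * om (w.1 i) (tv a b s) +
            ∑ s', L (QQ a b s') (QQ a b s) * (w.2 s' * om (tv a b s') (tv a b s)) := by
          simp only [E2, a1, om_zero_left, mul_zero, add_zero]
          rfl
        rw [h4] at h3
        have key : ∀ p q r : F2, p + q + r = 0 → p = q + r := by decide
        exact key _ _ _ h3
    · push Not at hv
      obtain ⟨π, hπ, hvπ⟩ := exists_gen v
      have hnd : ∀ x, ¬ π ∣ RR a b P x := fun x hx => hv x ((hvπ _).2 hx)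
      have hP : ¬ π ∣ ∏ i, P i := by
        rw [hπ.prime.dvd_finset_prod_iff]
        rintro ⟨i, -, hi⟩
        exact hnd (Sum.inl i) hi
      have hbad : ¬ π ∣ a * b * (a - b) := by
        intro hd
        have hl : π.leadingCoeff ≠ 0 := leadingCoeff_ne_zero.2 hπ.ne_zero
        have hu : IsUnit (C π.leadingCoeff⁻¹ : k[X]) :=
          isUnit_C.2 (isUnit_iff_ne_zero.2 (inv_ne_zero hl))
        have h5 : C π.leadingCoeff⁻¹ * π ∣ π := (hu.mul_left_dvd).2 dvd_rfl
        have h6 : C π.leadingCoeff⁻¹ * π ∈ bp a b := by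
          rw [mem_bp H]
          refine ⟨?_, ?_, h5.trans hd⟩
          · rw [Monic, leadingCoeff_mul, leadingCoeff_C, inv_mul_cancel₀ hl]
          · exact (irreducible_isUnit_mul hu).2 hπ
        exact hnd (Sum.inr ⟨_, h6⟩) (dvd_mul_left _ _)
      have nA : ¬ π ∣ a * ∏ i, P i := fun h => (hπ.prime.dvd_or_dvd h).elim
        (fun h => hbad ((h.mul_right b).mul_right _)) hP
      have nB : ¬ π ∣ b * ∏ i, P i := fun h => (hπ.prime.dvd_or_dvd h).elim
        (fun h => hbad ((h.mul_left a).mul_right _)) hP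
      have nAB : ¬ π ∣ a * ∏ i, P i - b * ∏ i, P i := by
        rw [← sub_mul]
        exact fun h => (hπ.prime.dvd_or_dvd h).elim (fun h => hbad (h.mul_left _)) hP
      rcases good_pl (K := K) h2 v hπ hvπ nA nB nAB (not_dvd_el hπ hnd (nw0 a b w))
        (not_dvd_el hπ hnd (nw1 a b w)) with ⟨T, s0, s1⟩ | ⟨x, y, e, x0, xa, s0, s1⟩
      · exact locSol_pt2 (compAlgebra' k[X] K v K) (compAlgebra k[X] K v) (fun x => rfl) T s0 s1
      · exact locSol_xy (compAlgebra' k[X] K v K) (compAlgebra k[X] K v) (fun x => rfl) h2K haK hbK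
          habK e x0 xa s0 s1
  · have hd := deg_w H hR w
    rw [hw] at hd
    have d0' : Even (el (RR a b P) 1 (nw0 a b w)).natDegree := by
      rw [← cast_eq_zero_iff_even]
      exact congrArg Prod.fst hd
    have d1' : Even (el (RR a b P) 1 (nw1 a b w)).natDegree := by
      rw [← cast_eq_zero_iff_even]
      exact congrArg Prod.snd hd
    refine locSol_pt2 (compInfAlgebra' k K K) (compInfAlgebra k K) (fun x => rfl) 0 ?_ ?_
    · have h3 := sq_inf' (K := K) h2 (monic_el hR.mon (nw0 a b w)) d0'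
      show SqEq _ (algebraMap K (CompInf k K) 1)
      rw [map_one]
      exact h3
    · have h3 := sq_inf' (K := K) h2 (monic_el hR.mon (nw1 a b w)) d1'
      show SqEq _ (algebraMap K (CompInf k K) 1)
      rw [map_one]
      exact h3

end

end Pool.Agent.V8H26.XA
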